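import Mathlib
import Pool.Agent.H524.EvenC
import Pool.Agent.H524.EvenD
import Pool.Agent.H524.Sign

/-!
Characteristic two: the parity obstruction for one polynomial `H`, under the weakest hypotheses.
-/

namespace Pool.Agent.H524

set_option linter.unusedSectionVars false
set_option linter.all false

open Polynomial

section main

local instance : Fact (Nat.Prime 2) := ⟨Nat.prime_two⟩

variable {K : Type*} [Field K] [Fintype K] [CharP K 2]

/-- The package of lifted polynomials. -/
lemma exists_lift_package_of (G H : K[X]) (hG : G.Monic) (hH : H.Monic) (d s : ℕ)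
    (hd : H.natDegree = d) (hs : 3 ≤ s) (hodd : (d + s) % 2 = 1)
    (hdiv : ∀ (Q : K[X]) (e : ℕ), Q.Monic → e + 2 * Q.natDegree = d → e = (s + 1) % 2 →
      X * derivative H - C (s : K) * H = X ^ e * Q ^ 2 → Q ∣ G)
    (hlt : d < s + 4 * G.natDegree) :
    ∃ F' H' W Z : (WittVector 2 K)[X],
      F'.Monic ∧ F'.map (red K) = X ^ s * G ^ 4 + H ∧
      H'.Monic ∧ H'.map (red K) = H ∧ H'.natDegree = d ∧
      F' = H' + (euler H' - C (s : WittVector 2 K) * H') * W ∧
      W.natDegree + d ≤ s + 4 * G.natDegree ∧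
      euler F' = C (s : WittVector 2 K) * (F' - H') + euler H' + 4 * Z ∧
      Z.map (red K) = X ^ s * G ^ 3 * euler G ∧
      F'.eval 0 = H'.eval 0 := by
  obtain ⟨Q, e, hQm, hQd, he, hQ⟩ := exists_twisted_sqrt H hH d s hd hodd
  have hQG : Q ∣ G := hdiv Q e hQm hQd he hQ
  obtain ⟨w, hw⟩ := hQG
  have hwm : w.Monic := by
    have : (Q * w).Monic := by rw [← hw]; exact hG
    exact hQm.of_mul_monic_left this
  have hGd : G.natDegree = Q.natDegree + w.natDegree := by
    rw [hw, hQm.natDegree_mul hwm]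
  obtain ⟨H', hH'1, hH'2, hH'3⟩ := exists_monic_lift H hH
  obtain ⟨Q', hQ'1, hQ'2, hQ'3⟩ := exists_monic_lift Q hQm
  obtain ⟨w', hw'1, hw'2, hw'3⟩ := exists_monic_lift w hwm
  -- the lift of the twisted derivative
  set A : (WittVector 2 K)[X] := euler H' - C (s : WittVector 2 K) * H' with hA
  have hAred : A.map (red K) = X ^ e * Q ^ 2 := by
    rw [hA, Polynomial.map_sub, euler_map, hH'1, Polynomial.map_mul, map_C, hH'1, map_natCast,
      ← hQ]
    rfl
  obtain ⟨E, hE⟩ := exists_two_mul_of_map_zero (A - X ^ e * Q' ^ 2) (by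
    rw [Polynomial.map_sub, hAred, Polynomial.map_mul, Polynomial.map_pow, Polynomial.map_pow,
      map_X, hQ'1, sub_self])
  have hAE : A = X ^ e * Q' ^ 2 + 2 * E := by linear_combination hE
  obtain ⟨t, ht⟩ : ∃ t, s = t + 2 * e := ⟨s - 2 * e, by omega⟩
  have ht1 : 1 ≤ t := by omega
  -- the coefficient of `A` in degree `d`
  have hH'd : H'.natDegree = d := by rw [hH'2, hd]
  have hHc : H'.coeff d = 1 := by rw [← hH'd]; exact hH'3
  have hAc : A.coeff d = (d : WittVector 2 K) - s := by
    rw [hA, coeff_sub, coeff_C_mul, hHc, mul_one]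
    congr 1
    rw [euler]
    rcases Nat.eq_zero_or_pos d with h | h
    · subst h; simp
    · obtain ⟨m, rfl⟩ : ∃ m, d = m + 1 := ⟨d - 1, by omega⟩
      rw [coeff_X_mul, coeff_derivative, hHc]
      push_cast; ring
  have hAd : A.natDegree ≤ d := by
    rw [hA]
    refine (natDegree_sub_le _ _).trans (max_le ?_ ?_)
    · rw [euler]
      rcases Nat.eq_zero_or_pos d with h | h
      · rw [derivative_of_natDegree_zero (by rw [hH'd, h])]
        simp
      · refine natDegree_mul_le.trans ?_
        have := natDegree_derivative_le H'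
        rw [natDegree_X]
        omega
    · exact (natDegree_C_mul_le _ _).trans hH'd.le
  -- the second factor
  set T : (WittVector 2 K)[X] := 2 * (X ^ e * Q' ^ 2) - A with hT
  have hXQd : (X ^ e * Q' ^ 2).natDegree = d := by
    rw [(monic_X_pow e).natDegree_mul (hQ'3.pow 2), natDegree_X_pow, hQ'3.natDegree_pow, hQ'2]
    omega
  have hXQm : (X ^ e * Q' ^ 2).Monic := (monic_X_pow e).mul (hQ'3.pow 2)
  have hTd : T.natDegree ≤ d := by
    rw [hT]
    refine (natDegree_sub_le _ _).trans (max_le ?_ hAd)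
    rw [← map_ofNat C 2]
    exact (natDegree_C_mul_le _ _).trans hXQd.le
  have hTc : T.coeff d = 2 - ((d : WittVector 2 K) - s) := by
    rw [hT, coeff_sub, hAc, ← map_ofNat C 2, coeff_C_mul]
    have : (X ^ e * Q' ^ 2).coeff d = 1 := by rw [← hXQd]; exact hXQm
    rw [this, mul_one]
  -- the unit
  have hredds : red K (d : WittVector 2 K) - red K (s : WittVector 2 K) = 1 := by
    rw [map_natCast, map_natCast]
    have h2 : (d : K) + s = 1 := by
      obtain ⟨k, hk⟩ : ∃ k, d + s = 2 * k + 1 := ⟨(d + s) / 2, by omega⟩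
      have h5 : ((d + s : ℕ) : K) = ((2 * k + 1 : ℕ) : K) := by rw [hk]
      push_cast at h5
      rw [h5, two_eq_zero_K]; ring
    have h3 : (d : K) - s = (d : K) + s - 2 * s := by ring
    rw [h3, h2, two_eq_zero_K]; ring
  have hred2 : red K (2 : WittVector 2 K) = 0 := by
    rw [← two_dvd_iff]
  have hredc : red K (((d : WittVector 2 K) - s) * (2 - ((d : WittVector 2 K) - s))) = 1 := by
    rw [map_mul, map_sub, map_sub, map_sub, hredds, hred2]
    have h4 : (1 : K) * (0 - 1) = 1 - 2 := by ring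
    rw [h4, two_eq_zero_K]; ring
  have hunit : IsUnit (((d : WittVector 2 K) - s) * (2 - ((d : WittVector 2 K) - s))) := by
    apply isUnit_iff_red
    rw [hredc]
    exact one_ne_zero
  obtain ⟨u, hu⟩ := hunit.exists_right_inv
  have hured : red K u = 1 := by
    have h1 := congrArg (red K) hu
    rw [map_mul, map_one, hredc, one_mul] at h1
    exact h1
  set W : (WittVector 2 K)[X] := C u * X ^ t * T * w' ^ 4 with hW
  have hAT : A * T = X ^ (2 * e) * Q' ^ 4 - 4 * E ^ 2 := by
    rw [hT, hAE, pow_mul']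
    ring
  have hfW : A * W = C u * X ^ t * (X ^ (2 * e) * Q' ^ 4 - 4 * E ^ 2) * w' ^ 4 := by
    rw [hW, ← hAT]; ring
  have hATm : (C u * (A * T)).Monic ∧ (C u * (A * T)).natDegree = 2 * d := by
    have h1 : (C u * (A * T)).natDegree ≤ 2 * d := by
      refine (natDegree_C_mul_le _ _).trans (natDegree_mul_le.trans ?_)
      omega
    have h2 : (C u * (A * T)).coeff (2 * d) = 1 := by
      rw [coeff_C_mul, two_mul, coeff_mul_add_eq_of_natDegree_le hAd hTd, hAc, hTc, mul_comm]
      exact hu
    refine ⟨monic_of_natDegree_le_of_coeff_eq_one _ h1 h2, le_antisymm h1 ?_⟩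
    apply le_natDegree_of_ne_zero
    rw [h2]
    exact one_ne_zero
  have hAWeq : A * W = X ^ t * (C u * (A * T)) * w' ^ 4 := by
    rw [hW]; ring
  have hAWm : (A * W).Monic := by
    rw [hAWeq]
    exact ((monic_X_pow t).mul hATm.1).mul (hw'3.pow 4)
  have hAWd : (A * W).natDegree = s + 4 * G.natDegree := by
    rw [hAWeq, ((monic_X_pow t).mul hATm.1).natDegree_mul (hw'3.pow 4),
      (monic_X_pow t).natDegree_mul hATm.1, natDegree_X_pow, hATm.2, hw'3.natDegree_pow, hw'2, hGd]
    omega
  refine ⟨H' + A * W, H', W, C u * X ^ t * ((2 * C (e : WittVector 2 K) * E ^ 2 +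
    X ^ (2 * e) * Q' ^ 3 * euler Q' - 2 * E * euler E) * w' ^ 4 +
      (A * T) * w' ^ 3 * euler w'), ?_, ?_, hH'3, hH'1, hH'd, ?_, ?_, ?_, ?_, ?_⟩
  · rw [add_comm]
    apply hAWm.add_of_left
    rw [degree_eq_natDegree hAWm.ne_zero, degree_eq_natDegree hH'3.ne_zero, hAWd, hH'd]
    exact_mod_cast hlt
  · rw [Polynomial.map_add, hH'1, hfW]
    simp only [Polynomial.map_mul, Polynomial.map_sub, Polynomial.map_pow, map_X, map_C, hured,
      hQ'1, hw'1, C_1, Polynomial.map_ofNat, one_mul]
    have h4 : (4 : K[X]) = 0 := by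
      have : (4 : K[X]) = 2 * 2 := by norm_num
      rw [this, two_eq_zero_poly, zero_mul]
    rw [h4, zero_mul, sub_zero, hw, ht]
    ring
  · rfl
  · have : W.natDegree ≤ t + d + 4 * w.natDegree := by
      rw [hW]
      refine natDegree_mul_le.trans ?_
      rw [hw'3.natDegree_pow, hw'2]
      have h1 : (C u * X ^ t * T).natDegree ≤ t + d := by
        refine natDegree_mul_le.trans ?_
        have : (C u * X ^ t).natDegree ≤ t := (natDegree_C_mul_le _ _).trans (natDegree_X_pow _).le
        omega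
      omega
    omega
  · rw [euler_add, hfW]
    simp only [euler_mul, euler_sub, euler_C, euler_X_pow, euler_pow_four, euler_pow_two,
      euler_four]
    rw [hAT, ht]
    push_cast
    simp only [C_add, C_mul]
    rw [show (C (2 : WittVector 2 K)) = 2 from map_ofNat C 2]
    ring
  · simp only [Polynomial.map_mul, Polynomial.map_sub, Polynomial.map_add, Polynomial.map_pow,
      map_X, map_C, hured, hQ'1, hw'1, C_1, Polynomial.map_ofNat, one_mul, euler_map, hAred, hT,
      map_natCast]
    rw [two_eq_zero_poly, hw, ht, euler_mul]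
    have h1 : -(X ^ e * Q ^ 2 : K[X]) = X ^ e * Q ^ 2 := by
      have : -(X ^ e * Q ^ 2 : K[X]) = X ^ e * Q ^ 2 - 2 * (X ^ e * Q ^ 2) := by ring
      rw [this, two_eq_zero_poly]; ring
    simp only [zero_mul, zero_sub, sub_zero, zero_add]
    rw [h1, pow_add, pow_mul']
    ring
  · rw [eval_add, hfW]
    simp only [eval_mul, eval_pow, eval_X]
    rw [zero_pow (by omega : t ≠ 0)]
    ring

/-- The parity obstruction in characteristic two. -/
theorem even_core_of (G H : K[X]) (hG : G.Monic) (hGe : Even G.natDegree) (hH : H.Monic)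
    (d s : ℕ) (hd : H.natDegree = d) (hd1 : 1 ≤ d) (hs : 3 ≤ s)
    (hdiv : ∀ (Q : K[X]) (e : ℕ), Q.Monic → e + 2 * Q.natDegree = d → e = (s + 1) % 2 →
      X * derivative H - C (s : K) * H = X ^ e * Q ^ 2 → Q ∣ G)
    (hHirr : Irreducible H)
    (hlt : d < s + 4 * G.natDegree) (hodd : (d + s) % 2 = 1)
    (hmod : (s + 4 * G.natDegree - d) % 8 = 1 ∨ (s + 4 * G.natDegree - d) % 8 = 7 ∨
      Fintype.card K % 3 = 1) :
    ¬ Irreducible (X ^ s * G ^ 4 + H) := by
  intro hF
  have hfd : (X ^ s * G ^ 4).natDegree = s + 4 * G.natDegree := by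
    rw [(monic_X_pow s).natDegree_mul (hG.pow 4), natDegree_X_pow, hG.natDegree_pow]
  have hFd : (X ^ s * G ^ 4 + H).natDegree = s + 4 * G.natDegree := by
    rw [natDegree_add_eq_left_of_natDegree_lt (by rw [hfd, hd]; exact hlt), hfd]
  have hH0 : H.eval 0 ≠ 0 := by
    intro h
    have h1 : (X ^ s * G ^ 4 + H).IsRoot 0 := by
      show (X ^ s * G ^ 4 + H).eval 0 = 0
      rw [eval_add, eval_mul, eval_pow, eval_X, zero_pow (by omega), zero_mul, zero_add, h]
    have h2 := degree_eq_one_of_irreducible_of_root hF h1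
    rw [degree_eq_natDegree hF.ne_zero, hFd] at h2
    have h3 : s + 4 * G.natDegree = 1 := by exact_mod_cast h2
    omega
  -- the lifts
  obtain ⟨F', H', W, Z, hF'm, hF'r, hH'm, hH'r, hH'd, hFHW, hWd, heul, hZ, h0⟩ :=
    exists_lift_package_of G H hG hH d s hd hs hodd hdiv hlt
  have hmapσ : ∀ P : (WittVector 2 K)[X], (P.map (emb K)).map (frobLift K) = P.map (emb K) := by
    intro P
    rw [Polynomial.map_map]
    have : (frobLift K).comp (emb K) = emb K := RingHom.ext (frobLift_emb K)
    rw [this]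
  have hmapc : ∀ P : (WittVector 2 K)[X], (P.map (emb K)).map (red (AC K)) =
      (P.map (red K)).map (algebraMap K (AC K)) := by
    intro P
    rw [Polynomial.map_map, Polynomial.map_map]
    have : (red (AC K)).comp (emb K) = (algebraMap K (AC K)).comp (red K) :=
      RingHom.ext (red_emb K)
    rw [this]
  obtain ⟨a, ha⟩ := exists_root_lift K hF (F'.map (emb K)) (hF'm.map _)
    (by rw [hmapc, hF'r])
  obtain ⟨b, hb⟩ := exists_root_lift K hHirr (H'.map (emb K)) (hH'm.map _)
    (by rw [hmapc, hH'r])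
  obtain ⟨r, hr⟩ : ∃ r, s + 4 * G.natDegree = d + r := ⟨s + 4 * G.natDegree - d, by omega⟩
  rw [hr] at hFd
  obtain ⟨v, hv1, hv2, hv3⟩ := exists_cycle' (frobLift K) (red (AC K)) (red_frobLift K) hF hFd
    (F'.map (emb K)) (hF'm.map _) (hmapσ _) (by rw [hmapc, hF'r]) a ha
  obtain ⟨u, hu1, hu2, hu3⟩ := exists_cycle' (frobLift K) (red (AC K)) (red_frobLift K) hHirr hd
    (H'.map (emb K)) (hH'm.map _) (hmapσ _) (by rw [hmapc, hH'r]) b hb
  have h2E : (2 : AC K) = 0 := by
    have := CharP.cast_eq_zero (AC K) 2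
    exact_mod_cast this
  have hemb0 : ∀ P : (WittVector 2 K)[X], (P.map (emb K)).eval 0 = emb K (P.eval 0) := by
    intro P
    have := eval_map_apply (f := emb K) (p := P) (x := (0 : WittVector 2 K))
    rw [map_zero] at this
    exact this
  have hunit : IsUnit ((H'.map (emb K)).eval 0) := by
    rw [hemb0]
    apply IsUnit.map
    apply isUnit_iff_red
    have h5 := eval_map_apply (f := red K) (p := H') (x := (0 : WittVector 2 K))
    rw [map_zero, hH'r] at h5
    rw [← h5]
    exact hH0
  have key := vdm_mod_eight_aux (s := s) (red (AC K)) h2E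
    (fun x hx => (two_dvd_iff x).mpr hx) (by omega : d < d + r) v u
    (F'.map (emb K)) (H'.map (emb K)) (W.map (emb K)) (Z.map (emb K))
    (G.map (algebraMap K (AC K))) hv1 hu1 (hG.map _) (by rw [natDegree_map]; exact hGe)
    (by rw [natDegree_map, hr])
    (by
      rw [hFHW]
      simp only [Polynomial.map_add, Polynomial.map_mul, Polynomial.map_sub, euler_map,
        Polynomial.map_natCast, map_natCast])
    (le_trans (Nat.add_le_add_right natDegree_map_le d) (by rw [← hr]; exact hWd))
    (by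
      have h6 := congrArg (fun P => P.map (emb K)) heul
      simp only [Polynomial.map_add, Polynomial.map_mul, Polynomial.map_sub, euler_map,
        map_natCast, Polynomial.map_natCast, Polynomial.map_ofNat] at h6 ⊢
      exact h6)
    (by
      rw [hmapc, hZ, Polynomial.map_mul, Polynomial.map_mul, Polynomial.map_pow,
        Polynomial.map_pow, map_X, euler_map])
    (by rw [hemb0, hemb0, h0]) hunit hv3
  -- the total factor
  obtain ⟨j, hj⟩ := hGe
  have hr1 : r % 2 = 1 := by omega
  obtain ⟨κ, hκ, hdvd⟩ := factor_mod_eight d s r j (by omega) hr1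
  rw [hr, Nat.add_sub_cancel_left] at hmod
  rw [Nat.add_sub_cancel_left] at key
  -- conclusion modulo eight
  have hV : (8 : WittVector 2 (AC K)) ∣ vdm v ^ 2 - (κ : WittVector 2 (AC K)) * vdm u ^ 2 := by
    obtain ⟨y1, hy1⟩ := key
    obtain ⟨y2, hy2⟩ := hdvd
    have hy3 : (((-1 : ℤ) ^ (d + r + (d + r) * (d + r - 1) / 2) * ((-1) ^ ((d + r) * d + d * d) *
        ((d : ℤ) - s) ^ r * (-1) ^ (d + d * (d - 1) / 2)) - κ : ℤ) : WittVector 2 (AC K)) =
        ((8 * y2 : ℤ) : WittVector 2 (AC K)) := by rw [hy2]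
    push_cast at hy3
    have hε : ((-1 : WittVector 2 (AC K)) ^ (d + r + (d + r) * (d + r - 1) / 2)) ^ 2 = 1 := by
      rw [← pow_mul, mul_comm, pow_mul]
      simp
    refine ⟨(-1) ^ (d + r + (d + r) * (d + r - 1) / 2) * y1 + y2 * vdm u ^ 2, ?_⟩
    linear_combination ((-1 : WittVector 2 (AC K)) ^ (d + r + (d + r) * (d + r - 1) / 2)) * hy1 +
      vdm u ^ 2 * hy3 - vdm v ^ 2 * hε
  have hσ : ∀ {m : ℕ} (f : Fin m → WittVector 2 (AC K)),
      (∀ i, frobLift K (f i) = f (finRotate _ i)) →
      frobLift K (vdm f) = (-1) ^ (m - 1) * vdm f := by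
    intro m f hf
    rw [map_vdm, ← vdm_rotate]
    congr 1
    funext i
    exact hf i
  have hsv := hσ v hv2
  have hsu := hσ u hu2
  have hsign : ∀ t : WittVector 2 (AC K), frobLift K t = t → 
      (frobLift K (vdm v) = -vdm v ∧ frobLift K (t * vdm u) = t * vdm u) ∨
      (frobLift K (vdm v) = vdm v ∧ frobLift K (t * vdm u) = -(t * vdm u)) := by
    intro t ht
    rw [map_mul, ht, hsv, hsu]
    rcases Nat.even_or_odd (d - 1) with hd2 | hd2
    · left
      have hn2 : Odd (d + r - 1) := by
        rcases hd2 with ⟨m, hm⟩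
        exact ⟨m + r / 2, by omega⟩
      rw [hd2.neg_one_pow, hn2.neg_one_pow]
      constructor <;> ring
    · right
      have hn2 : Even (d + r - 1) := by
        rcases hd2 with ⟨m, hm⟩
        exact ⟨m + r / 2 + 1, by omega⟩
      rw [hd2.neg_one_pow, hn2.neg_one_pow]
      constructor <;> ring
  rcases hκ with hκ | ⟨hκ, hr8⟩
  · apply sign_contradiction (frobLift K) (vdm v) (1 * vdm u) (by rw [one_mul]; exact hu3) _
      (hsign 1 (map_one _))
    rw [hκ] at hV
    simpa using hV
  · have h3 : Fintype.card K % 3 = 1 := by omega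
    obtain ⟨z, hz⟩ := exists_omega (K := K) h3
    have hz' : (1 + 2 * emb K z) ^ 2 = -3 := by
      have h7 := congrArg (emb K) hz
      rw [map_pow, map_add, map_mul, map_one, map_ofNat, map_neg, map_ofNat] at h7
      exact h7
    have hred1 : red (AC K) (1 + 2 * emb K z) = 1 := by
      rw [map_add, map_mul, map_one, map_ofNat, h2E]; ring
    apply sign_contradiction (frobLift K) (vdm v) ((1 + 2 * emb K z) * vdm u)
      (by rw [map_mul, hred1, one_mul]; exact hu3) _
      (hsign (1 + 2 * emb K z) (by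
        rw [map_add, map_mul, map_one, map_ofNat, frobLift_emb]))
    rw [mul_pow, hz']
    rw [hκ] at hV
    push_cast at hV
    exact hV

end main

end Pool.Agent.H524
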