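import Pool.Agent.H524.SI.Bad
import Pool.Agent.H524.SI.Lift

/-!
# Short intervals with few irreducible polynomials: the matrix
-/

set_option autoImplicit false
set_option linter.all false

namespace Pool.Agent.H524.SI

open Polynomial Pool.Agent.H524.MT
open scoped Classical
open Pool.Agent.H985.KP (PA)
open Pool.Agent.H694.Typ (Mn PU Irn mem_Mn card_Mn mem_PU mem_Irn irn_one_le)

variable {K : Type} [Field K] [Fintype K] [CharP K 2]

theorem natDegree_le_of_dvd_lcm (P : K[X]) (hP : Irreducible P) (D : ℕ) (h : P ∣ lcmPoly K D) :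
    P.natDegree ≤ D := by
  unfold lcmPoly at h
  obtain ⟨i, hi, h3⟩ := (hP.prime.dvd_finsetProd_iff _).1 h
  have h4 := hP.natDegree_dvd_iff_dvd_X_pow_card_pow_sub_X (n := i + 1)
  rw [Nat.card_eq_fintype_card] at h4
  have h5 := Nat.le_of_dvd (Nat.succ_pos i) (h4.mpr h3)
  have := Finset.mem_range.1 hi
  omega

/-- The polynomial `W`. -/
noncomputable def WW (K : Type) [Field K] [Fintype K] (D s : ℕ) : K[X] :=
  X ^ s * (lcmPoly K D ^ 2) ^ 4

theorem WW_dvd (D s : ℕ) (hD : 1 ≤ D) (P : K[X]) (hP : Irreducible P) (h : P ∣ WW K D s) :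
    P.natDegree ≤ D := by
  unfold WW at h
  rcases hP.prime.dvd_or_dvd h with h1 | h1
  · have h2 : P ∣ X := hP.prime.dvd_of_dvd_pow h1
    have h3 := natDegree_le_of_dvd h2 X_ne_zero
    rw [natDegree_X] at h3
    omega
  · exact natDegree_le_of_dvd_lcm P hP D
      (hP.prime.dvd_of_dvd_pow (hP.prime.dvd_of_dvd_pow h1))

theorem dvd_WW (D s : ℕ) (P : K[X]) (hP : Irreducible P) (h : P.natDegree ≤ D) :
    P ∣ WW K D s := by
  unfold WW
  have h1 : P ∣ lcmPoly K D := dvd_lcmPoly P hP.ne_zero h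
  exact dvd_mul_of_dvd_right (dvd_pow (dvd_pow h1 (by norm_num)) (by norm_num)) _

theorem FF_deg (D s R d n : ℕ) (r H : K[X]) (hr : r.Monic) (hrR : r.natDegree = R)
    (hn : n = s + 4 * (2 * (lcmPoly K D).natDegree + R)) (hd : H.natDegree = d) (hdn : d < n) :
    (WW K D s * r ^ 4 + H).natDegree = n := by
  have hLm : (lcmPoly K D ^ 2 : K[X]).Monic := (monic_lcmPoly K D).pow 2
  have hWm : (WW K D s * r ^ 4).Monic := ((monic_X_pow s).mul (hLm.pow 4)).mul (hr.pow 4)
  have hWd : (WW K D s * r ^ 4).natDegree = n := by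
    unfold WW
    rw [((monic_X_pow s).mul (hLm.pow 4)).natDegree_mul (hr.pow 4),
      (monic_X_pow s).natDegree_mul (hLm.pow 4), natDegree_X_pow, hLm.natDegree_pow,
      (monic_lcmPoly K D).natDegree_pow, hr.natDegree_pow, hrR, hn]
    ring
  rw [natDegree_add_eq_left_of_natDegree_lt (by rw [hWd, hd]; exact hdn), hWd]

/-- The irreducible values have a rough exceptional `H`. -/
theorem exceptional (D s R d n : ℕ) (r H : K[X]) (hD : 1 ≤ D) (hr : r.Monic)
    (hrR : r.natDegree = R) (hRe : Even R)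
    (hn : n = s + 4 * (2 * (lcmPoly K D).natDegree + R)) (hH : H.Monic) (hd : H.natDegree = d)
    (hdn : d < n) (hDn : D < n) (hd1 : 1 ≤ d) (hs : 3 ≤ s) (hodd : (d + s) % 2 = 1)
    (hmod : (n - d) % 8 = 1) (hF : Irreducible (WW K D s * r ^ 4 + H)) :
    (∀ P : K[X], Irreducible P → P ∣ H → D < P.natDegree) ∧
      (¬ Irreducible H ∨ IsBad D d s H) := by
  have hFd := FF_deg D s R d n r H hr hrR hn hd hdn
  constructor
  · intro P hP hPH
    by_contra hPD
    have h1 : P ∣ WW K D s * r ^ 4 + H :=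
      dvd_add (dvd_mul_of_dvd_left (dvd_WW D s P hP (by omega)) _) hPH
    have h2 : Associated P (WW K D s * r ^ 4 + H) := hP.associated_of_dvd hF h1
    have h3 := natDegree_eq_of_degree_eq (degree_eq_degree_of_associated h2)
    omega
  · by_contra hcon
    rw [not_or, not_not] at hcon
    obtain ⟨hHi, hnb⟩ := hcon
    have hG : (lcmPoly K D ^ 2 * r : K[X]).Monic := ((monic_lcmPoly K D).pow 2).mul hr
    have hGd : (lcmPoly K D ^ 2 * r : K[X]).natDegree = 2 * (lcmPoly K D).natDegree + R := by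
      rw [((monic_lcmPoly K D).pow 2).natDegree_mul hr, (monic_lcmPoly K D).natDegree_pow, hrR]
    refine even_core_of (lcmPoly K D ^ 2 * r) H hG ?_ hH d s hd hd1 hs ?_ hHi ?_ hodd ?_ ?_
    · rw [hGd]
      exact (even_two_mul _).add hRe
    · intro Q e hQm hQd he hQ2
      by_contra hQ
      apply hnb
      refine ⟨Q, hQm, by omega, by rw [← he]; exact hQ2, fun h => hQ (dvd_mul_of_dvd_left h r)⟩
    · rw [hGd]; omega
    · left
      rw [hGd, ← hn]
      exact hmod
    · have h5 : (X ^ s * (lcmPoly K D ^ 2 * r) ^ 4 + H : K[X]) = WW K D s * r ^ 4 + H := by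
        unfold WW; ring
      rw [h5]
      exact hF

/-- Double counting. -/
theorem matrix (K : Type) [Field K] [Fintype K] [CharP K 2] : ∃ (A : ℕ) (C : ℝ), 1 ≤ A ∧ 1 ≤ C ∧
    ∀ (D s R d n m z z' : ℕ), 1 ≤ D → Even R →
      n = s + 4 * (2 * (lcmPoly K D).natDegree + R) → d < n → z < n → D < n → 1 ≤ d → 3 ≤ s →
      (d + s) % 2 = 1 → (n - d) % 8 = 1 →
      D ≤ m → 2 * m ≤ 3 * D → (s + 1) % 2 + 2 * m = d → 2 * D ≤ d → d ≤ 3 * D + 2 →
      (M₀ K).natDegree ≤ z' → 1 ≤ z' → z' ≤ D → A * z' + (M₀ K).natDegree ≤ d - m →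
      (M₀ K).natDegree ≤ z → 1 ≤ z → (M₀ K).natDegree ≤ D → A * z + (M₀ K).natDegree ≤ R →
      ∃ B : K[X], B.Monic ∧ B.natDegree = n ∧
        (({P : K[X] | (P - B).degree < (d : WithBot ℕ) ∧ Irreducible P}.ncard : ℝ)) ≤
          C * (Fintype.card K : ℝ) ^ d / z * (((d : ℝ) - 2 * D) / D + ((m : ℝ) - D) / z') := by
  obtain ⟨A₁, C₁, hA₁, hC₁, H₁⟩ := sieve_bd K
  obtain ⟨A₂, C₂, hA₂, hC₂, H₂⟩ := bad_rough_card K
  refine ⟨max A₁ A₂, C₁ * C₂, le_max_of_le_left hA₁, by nlinarith, ?_⟩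
  intro D s R d n m z z' hD hRe hn hdn hzn hDn hd1 hs hodd hmod hDm hmD hsm h2D h3D hM1 hz'1 hz'D
    hAz' hMz hz1 hMD hAz
  have hq : (0 : ℝ) < (Fintype.card K : ℝ) := by exact_mod_cast Fintype.card_pos
  have hD0 : (0 : ℝ) < D := by exact_mod_cast hD
  have hz0 : (0 : ℝ) < z := by exact_mod_cast hz1
  have hz'0 : (0 : ℝ) < z' := by exact_mod_cast hz'1
  have hA1z : A₁ * z + (M₀ K).natDegree ≤ R :=
    le_trans (Nat.add_le_add_right (Nat.mul_le_mul_right _ (le_max_left _ _)) _) hAz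
  have hA2z : A₂ * z' + (M₀ K).natDegree ≤ d - m :=
    le_trans (Nat.add_le_add_right (Nat.mul_le_mul_right _ (le_max_right _ _)) _) hAz'
  set E : Finset K[X] := (Mn K d).filter (fun H =>
    (∀ P : K[X], Irreducible P → P ∣ H → D < P.natDegree) ∧ (¬ Irreducible H ∨ IsBad D d s H))
    with hE
  have hEcard : (E.card : ℝ) ≤ (Fintype.card K : ℝ) ^ d / D *
      (((d : ℝ) - 2 * D) / D + C₂ * (((m : ℝ) - D) / z')) := by
    have h1 : E ⊆ ((Mn K d).filter (fun H => (∀ P : K[X], Irreducible P → P ∣ H →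
        D < P.natDegree) ∧ ¬ Irreducible H)) ∪ ((Mn K d).filter (fun H =>
        (∀ P : K[X], Irreducible P → P ∣ H → D < P.natDegree) ∧ IsBad D d s H)) := by
      intro H hH
      rw [hE, Finset.mem_filter] at hH
      rw [Finset.mem_union, Finset.mem_filter, Finset.mem_filter]
      rcases hH.2.2 with h | h
      · exact Or.inl ⟨hH.1, hH.2.1, h⟩
      · exact Or.inr ⟨hH.1, hH.2.1, h⟩
    have h2 := (Finset.card_le_card h1).trans (Finset.card_union_le _ _)
    have h3 := comp_card (K := K) d D hD h2D h3D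
    have h4 := H₂ D d s m z' hD hDm hmD hsm hM1 hz'1 hz'D hA2z
    have h5 : (E.card : ℝ) ≤ ((d : ℝ) - 2 * D) * (Fintype.card K : ℝ) ^ d / D ^ 2 +
        C₂ * ((m : ℝ) - D) * (Fintype.card K : ℝ) ^ d / (D * z') := by
      have h6 : (E.card : ℝ) ≤ (((Mn K d).filter (fun H => (∀ P : K[X], Irreducible P → P ∣ H →
        D < P.natDegree) ∧ ¬ Irreducible H)).card : ℝ) + (((Mn K d).filter (fun H =>
        (∀ P : K[X], Irreducible P → P ∣ H → D < P.natDegree) ∧ IsBad D d s H)).card : ℝ) := by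
        exact_mod_cast h2
      linarith
    refine h5.trans (le_of_eq ?_)
    field_simp
  have hrow : ∀ H ∈ E, (((Mn K R).filter (fun r => Irreducible (WW K D s * r ^ 4 + H))).card : ℝ) ≤
      C₁ * (Fintype.card K : ℝ) ^ R * D / z := by
    intro H hH
    rw [hE, Finset.mem_filter, mem_Mn] at hH
    obtain ⟨⟨hHm, hHd⟩, hHr, -⟩ := hH
    have h1 := H₁ 2 D (WW K D s) H
      (fun P _ hP _ hPD h => absurd (WW_dvd D s hD P hP h) (by omega))
      (fun P _ hP _ hPD => ⟨dvd_WW D s P hP hPD, fun h => absurd (hHr P hP h) (by omega)⟩)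
      R z D hMz hz1 hA1z hD hMD le_rfl
    refine le_trans ?_ h1
    have h2 : (Mn K R).filter (fun r => Irreducible (WW K D s * r ^ 4 + H)) ⊆
        (Mn K R).filter (fun a => ∀ P ∈ PS K (M₀ K) z, ¬ P ∣ WW K D s * a ^ (2 ^ 2) + H) := by
      intro r hr
      rw [Finset.mem_filter, mem_Mn] at hr
      rw [Finset.mem_filter, mem_Mn]
      refine ⟨hr.1, fun P hP hPd => ?_⟩
      unfold PS at hP
      rw [Finset.mem_filter, mem_PU] at hP
      have h3 : Associated P (WW K D s * r ^ 4 + H) :=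
        hP.1.2.1.associated_of_dvd hr.2 (by simpa using hPd)
      have h4 := natDegree_eq_of_degree_eq (degree_eq_degree_of_associated h3)
      have h5 := FF_deg D s R d n r H hr.1.1 hr.1.2 hn hHd hdn
      have h6 := hP.1.2.2
      omega
    exact_mod_cast Finset.card_le_card h2
  -- the double count
  have hdc : ∑ r ∈ Mn K R, (((Mn K d).filter (fun H => Irreducible (WW K D s * r ^ 4 + H))).card : ℝ) ≤
      (E.card : ℝ) * (C₁ * (Fintype.card K : ℝ) ^ R * D / z) := by
    have h1 : ∀ r ∈ Mn K R, ((Mn K d).filter (fun H => Irreducible (WW K D s * r ^ 4 + H))).card ≤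
        (E.filter (fun H => Irreducible (WW K D s * r ^ 4 + H))).card := by
      intro r hr
      rw [mem_Mn] at hr
      apply Finset.card_le_card
      intro H hH
      rw [Finset.mem_filter, mem_Mn] at hH
      rw [Finset.mem_filter, hE, Finset.mem_filter, mem_Mn]
      exact ⟨⟨hH.1, exceptional D s R d n r H hD hr.1 hr.2 hRe hn hH.1.1 hH.1.2 hdn hDn hd1 hs
        hodd hmod hH.2⟩, hH.2⟩
    have h2 : ∑ r ∈ Mn K R, (((Mn K d).filter (fun H => Irreducible (WW K D s * r ^ 4 + H))).card : ℝ) ≤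
        ∑ r ∈ Mn K R, ((E.filter (fun H => Irreducible (WW K D s * r ^ 4 + H))).card : ℝ) :=
      Finset.sum_le_sum (fun r hr => by exact_mod_cast h1 r hr)
    refine h2.trans ?_
    have h3 : ∑ r ∈ Mn K R, ((E.filter (fun H => Irreducible (WW K D s * r ^ 4 + H))).card : ℝ) =
        ∑ H ∈ E, (((Mn K R).filter (fun r => Irreducible (WW K D s * r ^ 4 + H))).card : ℝ) := by
      have h4 := Finset.sum_card_bipartiteAbove_eq_sum_card_bipartiteBelow (s := Mn K R) (t := E)
        (fun r H => Irreducible (WW K D s * r ^ 4 + H))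
      unfold Finset.bipartiteAbove Finset.bipartiteBelow at h4
      exact_mod_cast h4
    rw [h3]
    refine (Finset.sum_le_sum hrow).trans ?_
    rw [Finset.sum_const, nsmul_eq_mul]
  -- a good row
  obtain ⟨r, hr, hrle⟩ : ∃ r ∈ Mn K R,
      (((Mn K d).filter (fun H => Irreducible (WW K D s * r ^ 4 + H))).card : ℝ) ≤
        (E.card : ℝ) * (C₁ * D / z) := by
    by_contra hcon
    push Not at hcon
    have hne : (Mn K R).Nonempty := by
      rw [← Finset.card_pos, card_Mn]
      exact pow_pos Fintype.card_pos _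
    have h1 := Finset.sum_lt_sum_of_nonempty hne hcon
    rw [Finset.sum_const, card_Mn, nsmul_eq_mul] at h1
    have h2 := lt_of_lt_of_le h1 hdc
    push_cast at h2
    have h3 : (E.card : ℝ) * (C₁ * (Fintype.card K : ℝ) ^ R * D / z) =
        (Fintype.card K : ℝ) ^ R * ((E.card : ℝ) * (C₁ * D / z)) := by ring
    rw [h3] at h2
    exact lt_irrefl _ h2
  rw [mem_Mn] at hr
  have hLm : (lcmPoly K D ^ 2 : K[X]).Monic := (monic_lcmPoly K D).pow 2
  have hWm : (WW K D s * r ^ 4).Monic := ((monic_X_pow s).mul (hLm.pow 4)).mul (hr.1.pow 4)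
  have hXd : (X ^ d : K[X]).natDegree = d := natDegree_X_pow d
  have hBd := FF_deg D s R d n r (X ^ d) hr.1 hr.2 hn hXd hdn
  refine ⟨WW K D s * r ^ 4 + X ^ d, ?_, hBd, ?_⟩
  · have hWd : (WW K D s * r ^ 4).natDegree = n := by
      have := FF_deg D s R 0 n r 1 hr.1 hr.2 hn natDegree_one (by omega)
      rw [natDegree_add_eq_left_of_natDegree_lt] at this
      · exact this
      · by_contra h
        rw [natDegree_one, not_lt, Nat.le_zero] at h
        have h1 : (WW K D s * r ^ 4 + 1).natDegree ≤ 0 :=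
          (natDegree_add_le _ _).trans (max_le h.le (by rw [natDegree_one]))
        omega
    apply hWm.add_of_left
    rw [degree_X_pow, degree_eq_natDegree hWm.ne_zero, hWd]
    exact_mod_cast hdn
  have hset : ({P : K[X] | (P - (WW K D s * r ^ 4 + X ^ d)).degree < (d : WithBot ℕ) ∧
      Irreducible P}.ncard : ℝ) ≤
      (((Mn K d).filter (fun H => Irreducible (WW K D s * r ^ 4 + H))).card : ℝ) := by
    have h1 : {P : K[X] | (P - (WW K D s * r ^ 4 + X ^ d)).degree < (d : WithBot ℕ) ∧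
        Irreducible P} ⊆ ((((Mn K d).filter (fun H => Irreducible (WW K D s * r ^ 4 + H))).image
          (fun H => WW K D s * r ^ 4 + H) : Finset K[X]) : Set K[X]) := by
      rintro P ⟨hP1, hP2⟩
      rw [Finset.coe_image, Set.mem_image]
      refine ⟨X ^ d + (P - (WW K D s * r ^ 4 + X ^ d)), ?_, by ring⟩
      rw [Finset.mem_coe, Finset.mem_filter, mem_Mn]
      refine ⟨⟨monic_X_pow_add hP1, ?_⟩, ?_⟩
      · rw [natDegree_add_eq_left_of_degree_lt, natDegree_X_pow]
        rw [degree_X_pow]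
        exact hP1
      · have h2 : WW K D s * r ^ 4 + (X ^ d + (P - (WW K D s * r ^ 4 + X ^ d))) = P := by ring
        rw [h2]
        exact hP2
    have h3 := Set.ncard_le_ncard h1 (Finset.finite_toSet _)
    rw [Set.ncard_coe_finset] at h3
    exact_mod_cast h3.trans Finset.card_image_le
  refine hset.trans (hrle.trans ?_)
  have hC0 : 0 ≤ C₁ * D / z := by positivity
  refine (mul_le_mul_of_nonneg_right hEcard hC0).trans ?_
  have hm0 : 0 ≤ ((m : ℝ) - D) / z' := by
    apply div_nonneg _ hz'0.le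
    have : (D : ℝ) ≤ m := by exact_mod_cast hDm
    linarith
  have hd0 : 0 ≤ ((d : ℝ) - 2 * D) / D := by
    apply div_nonneg _ hD0.le
    have : (2 * (D : ℝ)) ≤ d := by exact_mod_cast h2D
    linarith
  calc (Fintype.card K : ℝ) ^ d / D * (((d : ℝ) - 2 * D) / D + C₂ * (((m : ℝ) - D) / z')) *
        (C₁ * D / z) ≤ (Fintype.card K : ℝ) ^ d / D *
          (C₂ * (((d : ℝ) - 2 * D) / D) + C₂ * (((m : ℝ) - D) / z')) * (C₁ * D / z) := by
        apply mul_le_mul_of_nonneg_right _ hC0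
        apply mul_le_mul_of_nonneg_left _ (by positivity)
        have : ((d : ℝ) - 2 * D) / D ≤ C₂ * (((d : ℝ) - 2 * D) / D) :=
          le_mul_of_one_le_left hd0 hC₂
        linarith
    _ = _ := by field_simp

end Pool.Agent.H524.SI
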