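import Pool.Agent.H524.SI.Cnt

/-!
# The rough polynomials for which the parity is not controlled
-/

set_option autoImplicit false
set_option linter.all false

namespace Pool.Agent.H524.SI

open Polynomial Pool.Agent.H524.MT
open scoped Classical
open Pool.Agent.H985.KP (PA)
open Pool.Agent.H694.Typ (Mn PU Irn mem_Mn card_Mn mem_PU mem_Irn irn_one_le)

variable {K : Type} [Field K] [Fintype K] [CharP K 2]

theorem exists_sq_any (P : K[X]) (h : derivative P = 0) : ∃ Q : K[X], P = Q ^ 2 := by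
  haveI : Fact (Nat.Prime 2) := ⟨Nat.prime_two⟩
  have : ExpChar K 2 := ExpChar.prime Nat.prime_two
  have h1 := expand_contract 2 h (by norm_num)
  let e : K →+* K := (frobeniusEquiv K 2).symm.toRingHom
  refine ⟨map e (contract 2 P), ?_⟩
  rw [← map_frobenius_expand (p := 2)]
  rw [map_expand, map_map]
  have h2 : (frobenius K 2).comp e = RingHom.id K := by
    ext x
    show frobenius K 2 ((frobeniusEquiv K 2).symm x) = x
    exact frobenius_apply_frobeniusEquiv_symm K 2 x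
  rw [h2, map_id, h1]

theorem neg_eq_self' (a : K[X]) : -a = a := by
  have h : -a = a - 2 * a := by ring
  rw [h, two_eq_zero_poly, zero_mul, sub_zero]

/-- The decomposition of `H`. -/
theorem dec (H Q : K[X]) (d s e : ℕ) (hd : H.natDegree = d) (hQd : e + 2 * Q.natDegree = d)
    (he : e = (s + 1) % 2) (hQ2 : X * derivative H - C (s : K) * H = X ^ e * Q ^ 2) :
    ∃ Y : K[X], Y.degree < ((d - Q.natDegree : ℕ) : WithBot ℕ) ∧
      H = X ^ e * Q ^ 2 + X ^ (1 - e) * Y ^ 2 := by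
  have h2 : (2 : K[X]) = 0 := two_eq_zero_poly
  rcases Nat.even_or_odd s with hs | hs
  · have he1 : e = 1 := by
      obtain ⟨k, hk⟩ := hs
      omega
    have hs0 : (s : K) = 0 := by
      obtain ⟨k, rfl⟩ := hs
      push_cast
      rw [← two_mul, two_eq_zero_K, zero_mul]
    subst he1
    rw [hs0, C_0, zero_mul, sub_zero, pow_one] at hQ2
    have hder : derivative H = Q ^ 2 := mul_left_cancel₀ X_ne_zero hQ2
    have hZ : derivative (H + X * Q ^ 2) = 0 := by
      rw [derivative_add, derivative_mul, derivative_X, one_mul, hder, sq, derivative_mul]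
      have h3 : Q * Q + (Q * Q + X * (derivative Q * Q + Q * derivative Q)) =
        2 * (Q * Q + X * (derivative Q * Q)) := by ring
      rw [h3, h2, zero_mul]
    obtain ⟨Y, hY⟩ := exists_sq_any _ hZ
    have hHY : H = X ^ 1 * Q ^ 2 + X ^ (1 - 1) * Y ^ 2 := by
      rw [← hY]
      have h3 : (X : K[X]) ^ 1 * Q ^ 2 + X ^ (1 - 1) * (H + X * Q ^ 2) = H + 2 * (X * Q ^ 2) := by
        simp; ring
      rw [h3, h2, zero_mul, add_zero]
    refine ⟨Y, ?_, hHY⟩
    have hdY : (Y ^ 2).natDegree ≤ d := by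
      rw [← hY]
      refine (natDegree_add_le _ _).trans (max_le hd.le ?_)
      refine natDegree_mul_le.trans ?_
      rw [natDegree_X, natDegree_pow]
      omega
    rw [natDegree_pow] at hdY
    by_cases hY0 : Y = 0
    · rw [hY0, degree_zero]
      exact WithBot.bot_lt_coe _
    · rw [degree_eq_natDegree hY0]
      exact_mod_cast (by omega : Y.natDegree < d - Q.natDegree)
  · have he1 : e = 0 := by
      obtain ⟨k, hk⟩ := hs
      omega
    have hs1 : (s : K) = 1 := by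
      obtain ⟨k, rfl⟩ := hs
      push_cast
      rw [two_eq_zero_K]; ring
    subst he1
    rw [hs1, C_1, one_mul, pow_zero, one_mul] at hQ2
    obtain ⟨Y, hY⟩ := exists_sq_any _ (derivative_derivative_char_two H)
    have hHY : H = X ^ 0 * Q ^ 2 + X ^ (1 - 0) * Y ^ 2 := by
      rw [← hY, ← hQ2]
      have h3 : (X : K[X]) ^ 0 * (X * derivative H - H) + X ^ (1 - 0) * derivative H =
        2 * (X * derivative H) - H := by
        simp; ring
      rw [h3, h2, zero_mul, zero_sub, neg_eq_self']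
    refine ⟨Y, ?_, hHY⟩
    by_cases hY0 : Y = 0
    · rw [hY0, degree_zero]
      exact WithBot.bot_lt_coe _
    · have hXY : (X * Y ^ 2).natDegree ≤ d := by
        rw [← hY]
        have h3 : X * derivative H = Q ^ 2 + H := by
          rw [← hQ2]; ring
        rw [h3]
        refine (natDegree_add_le _ _).trans (max_le ?_ hd.le)
        rw [natDegree_pow]
        omega
      rw [natDegree_mul X_ne_zero (pow_ne_zero 2 hY0), natDegree_X, natDegree_pow] at hXY
      rw [degree_eq_natDegree hY0]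
      exact_mod_cast (by omega : Y.natDegree < d - Q.natDegree)

/-- The bad polynomials. -/
def IsBad (D d s : ℕ) (H : K[X]) : Prop :=
  ∃ Q : K[X], Q.Monic ∧ (s + 1) % 2 + 2 * Q.natDegree = d ∧
    X * derivative H - C (s : K) * H = X ^ ((s + 1) % 2) * Q ^ 2 ∧ ¬ Q ∣ lcmPoly K D ^ 2

/-- Counting the bad rough polynomials. -/
theorem bad_rough_card (K : Type) [Field K] [Fintype K] [CharP K 2] : ∃ (A : ℕ) (C : ℝ),
    1 ≤ A ∧ 1 ≤ C ∧ ∀ (D d s m z : ℕ), 1 ≤ D → D ≤ m → 2 * m ≤ 3 * D →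
      (s + 1) % 2 + 2 * m = d → (M₀ K).natDegree ≤ z → 1 ≤ z → z ≤ D →
      A * z + (M₀ K).natDegree ≤ d - m →
      (((Mn K d).filter (fun H => (∀ P : K[X], Irreducible P → P ∣ H → D < P.natDegree) ∧
        IsBad D d s H)).card : ℝ) ≤
        C * ((m : ℝ) - D) * (Fintype.card K : ℝ) ^ d / (D * z) := by
  obtain ⟨A, C, hA, hC, H0⟩ := sieve_bd K
  have hM1 : 1 ≤ (M₀ K).natDegree := by
    have h := natDegree_le_of_dvd (X_dvd_M₀ (K := K)) (M₀_monic (K := K)).ne_zero
    rwa [natDegree_X] at h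
  refine ⟨A, C * (M₀ K).natDegree, hA, ?_, ?_⟩
  · have h1 : (1 : ℝ) ≤ ((M₀ K).natDegree : ℝ) := by exact_mod_cast hM1
    nlinarith
  intro D d s m z hD hDm hm hsm hMz hz hzD hk
  obtain ⟨e, he⟩ : ∃ e, (s + 1) % 2 = e := ⟨_, rfl⟩
  obtain ⟨k, hkd⟩ : ∃ k, d - m = k := ⟨_, rfl⟩
  rw [hkd] at hk
  have hmk : m + k = d := by omega
  have he1 : e ≤ 1 := by omega
  have h2 : (2 : K[X]) = 0 := two_eq_zero_poly
  set V : K[X] → K[X] := fun Q => X ^ (1 - e) * (X ^ k) ^ 2 + X ^ e * Q ^ 2 with hV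
  have hexp : ∀ (a Q : K[X]), X ^ (1 - e) * a ^ (2 ^ 1) + V Q =
      X ^ e * Q ^ 2 + X ^ (1 - e) * (a + X ^ k) ^ 2 := by
    intro a Q
    rw [hV]
    have h3 : X ^ e * Q ^ 2 + X ^ (1 - e) * (a + X ^ k) ^ 2 =
      X ^ (1 - e) * a ^ (2 ^ 1) + (X ^ (1 - e) * (X ^ k) ^ 2 + X ^ e * Q ^ 2) +
        2 * (X ^ (1 - e) * (a * X ^ k)) := by ring
    rw [h3, h2, zero_mul, add_zero]
  have hsub : (Mn K d).filter (fun H => (∀ P : K[X], Irreducible P → P ∣ H → D < P.natDegree) ∧
      IsBad D d s H) ⊆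
      ((Mn K m).filter (fun Q => ¬ Q ∣ lcmPoly K D ^ 2)).biUnion
        (fun Q => ((Mn K k).filter (fun a => ∀ P ∈ PS K (M₀ K) z,
          ¬ P ∣ X ^ (1 - e) * a ^ (2 ^ 1) + V Q)).image
            (fun a => X ^ (1 - e) * a ^ (2 ^ 1) + V Q)) := by
    intro H hH
    rw [Finset.mem_filter, mem_Mn] at hH
    obtain ⟨⟨hHm, hHd⟩, hr, Q, hQm, hQd, hQ2, hQb⟩ := hH
    rw [he] at hQd hQ2
    have hQm' : Q.natDegree = m := by omega
    obtain ⟨Y, hYd, hHY⟩ := dec H Q d s e hHd hQd he.symm hQ2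
    rw [hQm', hkd] at hYd
    have hYX : (Y : K[X]).degree < (X ^ k : K[X]).degree := by
      rw [degree_X_pow]; exact hYd
    rw [Finset.mem_biUnion]
    refine ⟨Q, Finset.mem_filter.2 ⟨mem_Mn.2 ⟨hQm, hQm'⟩, hQb⟩, ?_⟩
    rw [Finset.mem_image]
    have hval : X ^ (1 - e) * (Y + X ^ k) ^ (2 ^ 1) + V Q = H := by
      rw [hexp, hHY]
      have h3 : Y + X ^ k + X ^ k = Y + 2 * X ^ k := by ring
      rw [h3, h2, zero_mul, add_zero]
    refine ⟨Y + X ^ k, ?_, hval⟩
    rw [Finset.mem_filter, mem_Mn]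
    refine ⟨⟨(monic_X_pow k).add_of_right hYX, ?_⟩, ?_⟩
    · rw [natDegree_add_eq_right_of_degree_lt hYX, natDegree_X_pow]
    · intro P hP hPd
      rw [hval] at hPd
      unfold PS at hP
      rw [Finset.mem_filter, mem_PU] at hP
      have h4 := hr P hP.1.2.1 hPd
      omega
  have hq : (0 : ℝ) < (Fintype.card K : ℝ) := by exact_mod_cast Fintype.card_pos
  have hD0 : (0 : ℝ) < D := by exact_mod_cast hD
  have hz0 : (0 : ℝ) < z := by exact_mod_cast hz
  have hsv : ∀ Q : K[X], (((Mn K k).filter (fun a => ∀ P ∈ PS K (M₀ K) z,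
      ¬ P ∣ X ^ (1 - e) * a ^ (2 ^ 1) + V Q)).card : ℝ) ≤
      C * (Fintype.card K : ℝ) ^ k * (M₀ K).natDegree / z := by
    intro Q
    refine H0 1 0 (X ^ (1 - e)) (V Q) ?_ ?_ k z (M₀ K).natDegree hMz hz hk hM1 le_rfl
      (Nat.zero_le _)
    · intro P _ hP hPM _ hPX
      have h5 : P ∣ X := hP.prime.dvd_of_dvd_pow hPX
      exact hPM (h5.trans X_dvd_M₀)
    · intro P _ hP _ h0
      have := hP.natDegree_pos
      omega
  have h6 : (((Mn K d).filter (fun H => (∀ P : K[X], Irreducible P → P ∣ H → D < P.natDegree) ∧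
      IsBad D d s H)).card : ℝ) ≤
      ∑ Q ∈ (Mn K m).filter (fun Q => ¬ Q ∣ lcmPoly K D ^ 2),
        C * (Fintype.card K : ℝ) ^ k * (M₀ K).natDegree / z := by
    have h7 := (Finset.card_le_card hsub).trans Finset.card_biUnion_le
    have h8 : (((Mn K d).filter (fun H => (∀ P : K[X], Irreducible P → P ∣ H → D < P.natDegree) ∧
        IsBad D d s H)).card : ℝ) ≤
        ∑ Q ∈ (Mn K m).filter (fun Q => ¬ Q ∣ lcmPoly K D ^ 2),
          ((((Mn K k).filter (fun a => ∀ P ∈ PS K (M₀ K) z,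
            ¬ P ∣ X ^ (1 - e) * a ^ (2 ^ 1) + V Q)).image
              (fun a => X ^ (1 - e) * a ^ (2 ^ 1) + V Q)).card : ℝ) := by
      exact_mod_cast h7
    refine h8.trans (Finset.sum_le_sum fun Q _ => le_trans ?_ (hsv Q))
    exact_mod_cast Finset.card_image_le
  refine h6.trans ?_
  rw [Finset.sum_const, nsmul_eq_mul]
  have h9 := bad_card (K := K) m D hD hDm hm
  have hE : 0 ≤ C * (Fintype.card K : ℝ) ^ k * (M₀ K).natDegree / z := by positivity
  refine (mul_le_mul_of_nonneg_right h9 hE).trans (le_of_eq ?_)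
  rw [← hmk, pow_add]
  field_simp

end Pool.Agent.H524.SI
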