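import Pool.Agent.H524.SI.Rt
import Pool.Agent.H524.EvenA

/-!
# Counting the exceptional polynomials
-/

set_option autoImplicit false
set_option linter.all false

namespace Pool.Agent.H524.SI

open Polynomial Pool.Agent.H524.MT
open scoped Classical
open Pool.Agent.H985.KP (PA)
open Pool.Agent.H694.Typ (Mn PU Irn mem_Mn card_Mn mem_PU mem_Irn irn_one_le)

/-- The sieve bound with constants. -/
theorem sieve_bd (K : Type) [Field K] [Fintype K] [CharP K 2] : ∃ (A : ℕ) (C : ℝ), 1 ≤ A ∧ 1 ≤ C ∧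
    ∀ (j D : ℕ) (U V : K[X]),
    (∀ P : K[X], P.Monic → Irreducible P → ¬ P ∣ M₀ K → D < P.natDegree → ¬ P ∣ U) →
    (∀ P : K[X], P.Monic → Irreducible P → ¬ P ∣ M₀ K → P.natDegree ≤ D → P ∣ U ∧ ¬ P ∣ V) →
    ∀ k z T : ℕ, (M₀ K).natDegree ≤ z → 1 ≤ z → A * z + (M₀ K).natDegree ≤ k → 1 ≤ T →
      (M₀ K).natDegree ≤ T → D ≤ T →
      (((Mn K k).filter (fun a => ∀ P ∈ PS K (M₀ K) z, ¬ P ∣ U * a ^ (2 ^ j) + V)).card : ℝ) ≤
        C * (Fintype.card K : ℝ) ^ k * T / z := by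
  obtain ⟨A, hA, H⟩ := sieve_all K
  obtain ⟨C, hC, H2⟩ := VR_le K
  refine ⟨A, 2 * C, hA, by linarith, ?_⟩
  intro j D U V h1 h2 k z T hz hz1 hk hT hMT hDT
  have h3 := H (M₀ K) _ _ M₀_monic (loc_aux j D U V h1 h2) k z hz hz1 hk
  have h4 := H2 (M₀ K) z D T M₀_monic.ne_zero hz1 hT hMT hDT
  refine h3.trans ?_
  have hq : (0 : ℝ) ≤ (Fintype.card K : ℝ) ^ k := by positivity
  calc (Fintype.card K : ℝ) ^ k * (2 * VR (M₀ K) z (fun P => if D < P.natDegree then 1 else 0)) ≤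
      (Fintype.card K : ℝ) ^ k * (2 * (C * T / z)) := by
        apply mul_le_mul_of_nonneg_left _ hq
        linarith
    _ = 2 * C * (Fintype.card K : ℝ) ^ k * T / z := by ring

variable {K : Type} [Field K] [Fintype K]

theorem irn_le (i D : ℕ) (hD : 1 ≤ D) (hi : D ≤ i) :
    ((Irn K i).card : ℝ) ≤ (Fintype.card K : ℝ) ^ i / D := by
  have h1 := irn_one_le (k := K) (d := i) (by omega)
  have h2 : (i : ℝ) * ((Irn K i).card : ℝ) ≤ (Fintype.card K : ℝ) ^ i := by exact_mod_cast h1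
  have hD0 : (0 : ℝ) < D := by exact_mod_cast hD
  rw [le_div_iff₀ hD0]
  have h3 : (D : ℝ) ≤ i := by exact_mod_cast hi
  have h4 : (0 : ℝ) ≤ ((Irn K i).card : ℝ) := Nat.cast_nonneg _
  nlinarith

/-- Composite rough polynomials. -/
theorem comp_card (d D : ℕ) (hD : 1 ≤ D) (hd2 : 2 * D ≤ d) (hd : d ≤ 3 * D + 2) :
    (((Mn K d).filter (fun H => (∀ P : K[X], Irreducible P → P ∣ H → D < P.natDegree) ∧
      ¬ Irreducible H)).card : ℝ) ≤
      ((d : ℝ) - 2 * D) * (Fintype.card K : ℝ) ^ d / D ^ 2 := by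
  have hfac : ∀ H : K[X], H.Monic → H ≠ 1 → (∀ P : K[X], Irreducible P → P ∣ H → D < P.natDegree) →
      ∃ P U : K[X], P.Monic ∧ Irreducible P ∧ U.Monic ∧ H = P * U ∧ D < P.natDegree := by
    intro H hH h1 hr
    have hu : ¬ IsUnit H := fun h => h1 (hH.isUnit_iff.1 h)
    obtain ⟨P, hPm, hP, U, hU⟩ := exists_monic_irreducible_factor H hu
    refine ⟨P, U, hPm, hP, ?_, hU, hr P hP ⟨U, hU⟩⟩
    rw [hU] at hH
    exact hPm.of_mul_monic_left hH
  have hsub : (Mn K d).filter (fun H => (∀ P : K[X], Irreducible P → P ∣ H → D < P.natDegree) ∧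
      ¬ Irreducible H) ⊆ (Finset.Icc (D + 1) (d - D - 1)).biUnion
        (fun i => ((Irn K i) ×ˢ (Irn K (d - i))).image (fun p => p.1 * p.2)) := by
    intro H hH
    rw [Finset.mem_filter, mem_Mn] at hH
    obtain ⟨⟨hHm, hHd⟩, hr, hni⟩ := hH
    have hH1 : H ≠ 1 := by
      rintro rfl
      rw [natDegree_one] at hHd
      omega
    obtain ⟨P, U, hPm, hP, hUm, hPU, hPD⟩ := hfac H hHm hH1 hr
    have hU1 : U ≠ 1 := by
      rintro rfl
      rw [mul_one] at hPU
      exact hni (hPU ▸ hP)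
    have hrU : ∀ R : K[X], Irreducible R → R ∣ U → D < R.natDegree := fun R hR hRU =>
      hr R hR (hPU ▸ dvd_mul_of_dvd_right hRU P)
    obtain ⟨R, V, hRm, hR, hVm, hRV, hRD⟩ := hfac U hUm hU1 hrU
    have hdeg : P.natDegree + U.natDegree = d := by
      rw [← hHd, hPU, hPm.natDegree_mul hUm]
    have hdeg2 : R.natDegree + V.natDegree = U.natDegree := by
      rw [hRV, hRm.natDegree_mul hVm]
    have hV1 : V = 1 := by
      by_contra hV1
      have hrV : ∀ S : K[X], Irreducible S → S ∣ V → D < S.natDegree := fun S hS hSV =>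
        hrU S hS (hRV ▸ dvd_mul_of_dvd_right hSV R)
      obtain ⟨S, Z, hSm, hS, hZm, hSZ, hSD⟩ := hfac V hVm hV1 hrV
      have hdeg3 : S.natDegree + Z.natDegree = V.natDegree := by
        rw [hSZ, hSm.natDegree_mul hZm]
      omega
    have hUR : U = R := by rw [hRV, hV1, mul_one]
    rw [Finset.mem_biUnion]
    have hUD : D < U.natDegree := by rw [hUR]; exact hRD
    refine ⟨P.natDegree, Finset.mem_Icc.2 ⟨by omega, by omega⟩, ?_⟩
    rw [Finset.mem_image]
    refine ⟨(P, U), ?_, hPU.symm⟩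
    rw [Finset.mem_product, mem_Irn, mem_Irn]
    refine ⟨⟨hPm, rfl, hP⟩, ⟨hUm, by show U.natDegree = d - P.natDegree; omega,
      by show Irreducible U; rw [hUR]; exact hR⟩⟩
  have hq : (0 : ℝ) < (Fintype.card K : ℝ) := by exact_mod_cast Fintype.card_pos
  have hD0 : (0 : ℝ) < D := by exact_mod_cast hD
  have h1 : (((Mn K d).filter (fun H => (∀ P : K[X], Irreducible P → P ∣ H → D < P.natDegree) ∧
      ¬ Irreducible H)).card : ℝ) ≤
      ∑ i ∈ Finset.Icc (D + 1) (d - D - 1), ((Irn K i).card : ℝ) * ((Irn K (d - i)).card : ℝ) := by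
    have h2 := (Finset.card_le_card hsub).trans Finset.card_biUnion_le
    have h3 : ∑ i ∈ Finset.Icc (D + 1) (d - D - 1),
        (((Irn K i) ×ˢ (Irn K (d - i))).image (fun p => p.1 * p.2)).card ≤
        ∑ i ∈ Finset.Icc (D + 1) (d - D - 1), (Irn K i).card * (Irn K (d - i)).card := by
      apply Finset.sum_le_sum
      intro i _
      exact Finset.card_image_le.trans (by rw [Finset.card_product])
    exact_mod_cast h2.trans h3
  refine h1.trans ?_
  have h4 : ∀ i ∈ Finset.Icc (D + 1) (d - D - 1),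
      ((Irn K i).card : ℝ) * ((Irn K (d - i)).card : ℝ) ≤ (Fintype.card K : ℝ) ^ d / D ^ 2 := by
    intro i hi
    rw [Finset.mem_Icc] at hi
    have h5 := irn_le (K := K) i D hD (by omega)
    have h6 := irn_le (K := K) (d - i) D hD (by omega)
    calc ((Irn K i).card : ℝ) * ((Irn K (d - i)).card : ℝ) ≤
        ((Fintype.card K : ℝ) ^ i / D) * ((Fintype.card K : ℝ) ^ (d - i) / D) :=
          mul_le_mul h5 h6 (Nat.cast_nonneg _) (by positivity)
      _ = (Fintype.card K : ℝ) ^ (i + (d - i)) / D ^ 2 := by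
          rw [pow_add]; field_simp
      _ = _ := by rw [show i + (d - i) = d by omega]
  refine (Finset.sum_le_sum h4).trans ?_
  rw [Finset.sum_const, Nat.card_Icc, nsmul_eq_mul]
  have h7 : ((d - D - 1 + 1 - (D + 1) : ℕ) : ℝ) ≤ (d : ℝ) - 2 * D := by
    have h8 : (d - D - 1 + 1 - (D + 1) : ℕ) + 2 * D ≤ d := by omega
    have h9 : ((d - D - 1 + 1 - (D + 1) : ℕ) : ℝ) + 2 * D ≤ d := by exact_mod_cast h8
    linarith
  calc ((d - D - 1 + 1 - (D + 1) : ℕ) : ℝ) * ((Fintype.card K : ℝ) ^ d / D ^ 2) ≤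
      ((d : ℝ) - 2 * D) * ((Fintype.card K : ℝ) ^ d / D ^ 2) :=
        mul_le_mul_of_nonneg_right h7 (by positivity)
    _ = _ := by ring

/-- Polynomials of degree at most `3 D / 2` without large prime factors divide the square of the
lcm. -/
theorem dvd_sq_lcm (Q : K[X]) (D : ℕ) (hQ : Q.Monic) (hQd : 2 * Q.natDegree ≤ 3 * D)
    (hs : ∀ P : K[X], P.Monic → Irreducible P → P ∣ Q → P.natDegree ≤ D) :
    Q ∣ lcmPoly K D ^ 2 := by
  have key : ∃ Q₁ Q₂ : K[X], Q = Q₁ * Q₂ ∧ Q₁.natDegree ≤ D ∧ Q₂.natDegree ≤ D := by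
    by_cases h1 : ∃ P : K[X], P.Monic ∧ Irreducible P ∧ P ∣ Q ∧ D ≤ 2 * P.natDegree
    · obtain ⟨P, hPm, hP, ⟨U, hU⟩, hPD⟩ := h1
      have hUm : U.Monic := by
        rw [hU] at hQ
        exact hPm.of_mul_monic_left hQ
      have hdeg : P.natDegree + U.natDegree = Q.natDegree := by
        rw [hU, hPm.natDegree_mul hUm]
      exact ⟨P, U, hU, hs P hPm hP ⟨U, hU⟩, by omega⟩
    · simp only [not_exists, not_and, not_le] at h1
      -- a divisor of maximal degree at most `D`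
      have hex : ∃ n : ℕ, ∃ Q₁ : K[X], Q₁.Monic ∧ Q₁ ∣ Q ∧ Q₁.natDegree = n ∧ n ≤ D :=
        ⟨0, 1, monic_one, one_dvd _, natDegree_one, Nat.zero_le _⟩
      have hmax := Nat.findGreatest_spec (P := fun n => ∃ Q₁ : K[X], Q₁.Monic ∧ Q₁ ∣ Q ∧
        Q₁.natDegree = n ∧ n ≤ D) (m := 0) (n := D) (Nat.zero_le _)
        ⟨1, monic_one, one_dvd _, natDegree_one, Nat.zero_le _⟩
      obtain ⟨Q₁, hQ1m, ⟨Q₂, hQ2⟩, hQ1d, hQ1D⟩ := hmax
      have hQ2m : Q₂.Monic := by
        rw [hQ2] at hQ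
        exact hQ1m.of_mul_monic_left hQ
      have hdeg : Q₁.natDegree + Q₂.natDegree = Q.natDegree := by
        rw [hQ2, hQ1m.natDegree_mul hQ2m]
      refine ⟨Q₁, Q₂, hQ2, by omega, ?_⟩
      by_contra h2
      have hu : ¬ IsUnit Q₂ := by
        intro h
        have h3 := hQ2m.isUnit_iff.1 h
        rw [h3, natDegree_one] at h2
        omega
      obtain ⟨P, hPm, hP, hPQ⟩ := exists_monic_irreducible_factor Q₂ hu
      have hPQ' : P ∣ Q := hQ2 ▸ dvd_mul_of_dvd_right hPQ Q₁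
      have h3 := h1 P hPm hP hPQ'
      have h4 : Q₁ * P ∣ Q := hQ2 ▸ mul_dvd_mul_left Q₁ hPQ
      have h5 : (Q₁ * P).natDegree = Q₁.natDegree + P.natDegree := hQ1m.natDegree_mul hPm
      have hP1 := hP.natDegree_pos
      have h6 : D < Q₁.natDegree + P.natDegree := by
        by_contra h7
        have h8 := Nat.le_findGreatest (P := fun n => ∃ Q₁ : K[X], Q₁.Monic ∧ Q₁ ∣ Q ∧
          Q₁.natDegree = n ∧ n ≤ D) (m := Q₁.natDegree + P.natDegree) (n := D) (by omega)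
          ⟨Q₁ * P, hQ1m.mul hPm, h4, h5, by omega⟩
        omega
      omega
  obtain ⟨Q₁, Q₂, h1, h2, h3⟩ := key
  have hQ0 := hQ.ne_zero
  rw [h1] at hQ0
  rw [h1, sq]
  exact mul_dvd_mul (dvd_lcmPoly Q₁ (left_ne_zero_of_mul hQ0) h2)
    (dvd_lcmPoly Q₂ (right_ne_zero_of_mul hQ0) h3)

/-- The number of the exceptional `Q`. -/
theorem bad_card (m D : ℕ) (hD : 1 ≤ D) (hDm : D ≤ m) (hm : 2 * m ≤ 3 * D) :
    (((Mn K m).filter (fun Q => ¬ Q ∣ lcmPoly K D ^ 2)).card : ℝ) ≤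
      ((m : ℝ) - D) * (Fintype.card K : ℝ) ^ m / D := by
  have hsub : (Mn K m).filter (fun Q => ¬ Q ∣ lcmPoly K D ^ 2) ⊆
      (Finset.Icc (D + 1) m).biUnion
        (fun i => ((Irn K i) ×ˢ (Mn K (m - i))).image (fun p => p.1 * p.2)) := by
    intro Q hQ
    rw [Finset.mem_filter, mem_Mn] at hQ
    obtain ⟨⟨hQm, hQd⟩, hbad⟩ := hQ
    have h1 : ∃ P : K[X], P.Monic ∧ Irreducible P ∧ P ∣ Q ∧ D < P.natDegree := by
      by_contra h
      simp only [not_exists, not_and, not_lt] at h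
      exact hbad (dvd_sq_lcm Q D hQm (by omega) h)
    obtain ⟨P, hPm, hP, ⟨U, hU⟩, hPD⟩ := h1
    have hUm : U.Monic := by
      rw [hU] at hQm
      exact hPm.of_mul_monic_left hQm
    have hdeg : P.natDegree + U.natDegree = m := by
      rw [← hQd, hU, hPm.natDegree_mul hUm]
    rw [Finset.mem_biUnion]
    refine ⟨P.natDegree, Finset.mem_Icc.2 ⟨by omega, by omega⟩, ?_⟩
    rw [Finset.mem_image]
    refine ⟨(P, U), ?_, hU.symm⟩
    rw [Finset.mem_product, mem_Irn, mem_Mn]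
    exact ⟨⟨hPm, rfl, hP⟩, ⟨hUm, by show U.natDegree = m - P.natDegree; omega⟩⟩
  have hq : (0 : ℝ) < (Fintype.card K : ℝ) := by exact_mod_cast Fintype.card_pos
  have hD0 : (0 : ℝ) < D := by exact_mod_cast hD
  have h1 : (((Mn K m).filter (fun Q => ¬ Q ∣ lcmPoly K D ^ 2)).card : ℝ) ≤
      ∑ i ∈ Finset.Icc (D + 1) m, ((Irn K i).card : ℝ) * ((Mn K (m - i)).card : ℝ) := by
    have h2 := (Finset.card_le_card hsub).trans Finset.card_biUnion_le
    have h3 : ∑ i ∈ Finset.Icc (D + 1) m,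
        (((Irn K i) ×ˢ (Mn K (m - i))).image (fun p => p.1 * p.2)).card ≤
        ∑ i ∈ Finset.Icc (D + 1) m, (Irn K i).card * (Mn K (m - i)).card := by
      apply Finset.sum_le_sum
      intro i _
      exact Finset.card_image_le.trans (by rw [Finset.card_product])
    exact_mod_cast h2.trans h3
  refine h1.trans ?_
  have h4 : ∀ i ∈ Finset.Icc (D + 1) m,
      ((Irn K i).card : ℝ) * ((Mn K (m - i)).card : ℝ) ≤ (Fintype.card K : ℝ) ^ m / D := by
    intro i hi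
    rw [Finset.mem_Icc] at hi
    have h5 := irn_le (K := K) i D hD (by omega)
    have h6 : ((Mn K (m - i)).card : ℝ) = (Fintype.card K : ℝ) ^ (m - i) := by
      rw [card_Mn]; push_cast; rfl
    rw [h6]
    calc ((Irn K i).card : ℝ) * (Fintype.card K : ℝ) ^ (m - i) ≤
        ((Fintype.card K : ℝ) ^ i / D) * (Fintype.card K : ℝ) ^ (m - i) :=
          mul_le_mul_of_nonneg_right h5 (by positivity)
      _ = (Fintype.card K : ℝ) ^ (i + (m - i)) / D := by
          rw [pow_add]; ring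
      _ = _ := by rw [show i + (m - i) = m by omega]
  refine (Finset.sum_le_sum h4).trans ?_
  rw [Finset.sum_const, Nat.card_Icc, nsmul_eq_mul]
  have h7 : ((m + 1 - (D + 1) : ℕ) : ℝ) = (m : ℝ) - D := by
    rw [show m + 1 - (D + 1) = m - D by omega]
    exact Nat.cast_sub hDm
  rw [h7]
  apply le_of_eq
  ring

end Pool.Agent.H524.SI
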