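import Pool.Agent.H524.SI.Asm
import Pool.Agent.H524.OddC

/-!
# Short intervals with few irreducible polynomials: the choice of the parameters
-/

set_option autoImplicit false
set_option linter.all false

namespace Pool.Agent.H524.SI

open Polynomial Pool.Agent.H524.MT
open scoped Classical

/-- The choice of the integral parameters. -/
theorem params (q A N₀ n ℓ d₀ D : ℕ) (hq : 2 ≤ q) (hA : 1 ≤ A)
    (hD1 : (4 * A + 4 * N₀ + 26) * q ^ D ≤ n) (hℓ : ℓ ≤ 2 * q ^ D)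
    (hd2 : 2 * D ≤ d₀) (hd3 : d₀ + 7 ≤ 3 * D) :
    ∃ R s d : ℕ, Even R ∧ n = s + 4 * (2 * ℓ + R) ∧ 3 ≤ s ∧ (d + s) % 2 = 1 ∧ (n - d) % 8 = 1 ∧
      d₀ ≤ d ∧ d ≤ d₀ + 7 ∧ (s + 1) % 2 + 2 * (d / 2) = d ∧ d < n ∧
      A * q ^ D + N₀ ≤ R := by
  have h1 : D < q ^ D := Nat.lt_pow_self (by omega)
  have hexp : (4 * A + 4 * N₀ + 26) * q ^ D = 4 * (A * q ^ D) + 4 * (N₀ * q ^ D) + 26 * q ^ D := by
    ring
  rw [hexp] at hD1
  have h2 : N₀ ≤ N₀ * q ^ D := Nat.le_mul_of_pos_right _ (by omega)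
  refine ⟨2 * ((n - 8 * ℓ - 3) / 8), n - 8 * ℓ - 4 * (2 * ((n - 8 * ℓ - 3) / 8)),
    d₀ + (n - d₀ - 1) % 8, even_two_mul _, ?_, ?_, ?_, ?_, ?_, ?_, ?_, ?_, ?_⟩
  all_goals omega

theorem main (K : Type) [Field K] [Fintype K] [CharP K 2] : ∃ C : ℝ, 0 < C ∧
    ∀ lam : ℝ, 2 < lam → lam ≤ 5 / 2 → ∃ n₀ : ℕ, ∀ n : ℕ, n₀ ≤ n →
      ∃ (B : K[X]) (h : ℕ), B.Monic ∧ B.natDegree = n ∧
        Real.log ((Fintype.card K : ℝ) ^ n) ^ lam ≤ (Fintype.card K : ℝ) ^ h ∧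
        (Fintype.card K : ℝ) ^ h ≤ C * Real.log ((Fintype.card K : ℝ) ^ n) ^ lam ∧
        (({P : K[X] | (P - B).degree < (h : WithBot ℕ) ∧ Irreducible P}.ncard : ℝ)) ≤
          C * (lam - 2) * ((Fintype.card K : ℝ) ^ h / n) := by
  obtain ⟨A, C, hA, hC, H⟩ := matrix K
  obtain ⟨N₀, hN₀⟩ : ∃ N₀, (M₀ K).natDegree = N₀ := ⟨_, rfl⟩
  rw [hN₀] at H
  have hq2 : 2 ≤ Fintype.card K := Fintype.one_lt_card
  have hq : (2 : ℝ) ≤ (Fintype.card K : ℝ) := by exact_mod_cast hq2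
  obtain ⟨T₀, hT₀⟩ : ∃ T₀ : ℕ, 4 * A + 4 * N₀ + 26 = T₀ := ⟨_, rfl⟩
  have hT1 : 1 ≤ T₀ := by omega
  have hAR : (1 : ℝ) ≤ A := by exact_mod_cast hA
  have hTR : (1 : ℝ) ≤ T₀ := by exact_mod_cast hT1
  set q : ℝ := (Fintype.card K : ℝ) with hqd
  set L : ℝ := Real.log q with hL
  have hL0 : 0 < L := Real.log_pos (by linarith)
  obtain ⟨c₁, hc₁⟩ : ∃ c₁ : ℝ, c₁ = Real.log T₀ / L + 1 := ⟨_, rfl⟩
  obtain ⟨c₂, hc₂⟩ : ∃ c₂ : ℝ, c₂ = 5 / 2 * |Real.log L / L| := ⟨_, rfl⟩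
  have hlT : 0 ≤ Real.log (T₀ : ℝ) := Real.log_nonneg hTR
  have hc₁0 : 0 < c₁ := by
    rw [hc₁]
    have : 0 ≤ Real.log (T₀ : ℝ) / L := div_nonneg hlT hL0.le
    linarith
  have hc₂0 : 0 ≤ c₂ := by rw [hc₂]; positivity
  obtain ⟨c, hc⟩ : ∃ c : ℝ, c = c₁ + c₂ + 10 := ⟨_, rfl⟩
  refine ⟨q ^ 8 + C * T₀ * q * (4 + 8 * A), by positivity, ?_⟩
  intro lam hl1 hl2
  obtain ⟨Bd, hBd⟩ : ∃ Bd : ℝ, Bd = 10 * c / (lam - 2) + 20 * c + 4 * A + 2 * N₀ +
    2 * A * (N₀ + 1) + c := ⟨_, rfl⟩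
  have hev : ∀ᶠ n : ℕ in Filter.atTop, Bd * L ≤ Real.log (n : ℝ) :=
    (Real.tendsto_log_atTop.comp tendsto_natCast_atTop_atTop).eventually_ge_atTop (Bd * L)
  obtain ⟨n₁, hn₁⟩ := Filter.eventually_atTop.1 hev
  refine ⟨max n₁ T₀, fun n hn => ?_⟩
  have hnT : T₀ ≤ n := le_trans (le_max_right _ _) hn
  have hlog := hn₁ n (le_trans (le_max_left _ _) hn)
  have hn1 : 1 ≤ n := by omega
  have hnR : (1 : ℝ) ≤ n := by exact_mod_cast hn1
  have hn0 : (0 : ℝ) < n := by linarith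
  obtain ⟨u, hu⟩ : ∃ u : ℝ, u = Real.log n / L := ⟨_, rfl⟩
  have huB : Bd ≤ u := by
    rw [hu, le_div_iff₀ hL0]
    exact hlog
  have hlu : Real.log n = u * L := by
    rw [hu, div_mul_cancel₀ _ hL0.ne']
  have hc10 : 10 ≤ c := by rw [hc]; linarith
  have hlm : 0 < lam - 2 := by linarith
  have hNR : (0 : ℝ) ≤ N₀ := Nat.cast_nonneg _
  have hdivpos : 0 < 10 * c / (lam - 2) := by positivity
  have hAN : 0 ≤ 2 * (A : ℝ) * (N₀ + 1) := by positivity
  have hi : 10 * c ≤ (lam - 2) * u := by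
    have h1 : 10 * c / (lam - 2) ≤ u := by rw [hBd] at huB; linarith
    rw [div_le_iff₀ hlm] at h1
    linarith
  have hii : 20 * c + 4 * A + 2 * N₀ + 2 * A * (N₀ + 1) + c ≤ u := by
    rw [hBd] at huB; linarith
  -- `D`
  obtain ⟨D, hD⟩ : ∃ D, D = Nat.log (Fintype.card K) (n / T₀) := ⟨_, rfl⟩
  have hnT0 : n / T₀ ≠ 0 := (Nat.div_pos hnT (by omega)).ne'
  have hD1 : T₀ * Fintype.card K ^ D ≤ n := by
    have h1 := Nat.pow_log_le_self (Fintype.card K) hnT0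
    rw [← hD] at h1
    calc T₀ * Fintype.card K ^ D ≤ T₀ * (n / T₀) := Nat.mul_le_mul_left _ h1
      _ ≤ n := Nat.mul_div_le _ _
  have hD2 : n < T₀ * Fintype.card K ^ (D + 1) := by
    have h1 := Nat.lt_pow_succ_log_self (b := Fintype.card K) (by omega) (n / T₀)
    rw [← hD] at h1
    have h2 := (Nat.div_lt_iff_lt_mul (by omega : 0 < T₀)).1 h1
    rw [mul_comm]
    exact h2
  have hD1R : (T₀ : ℝ) * q ^ D ≤ n := by rw [hqd]; exact_mod_cast hD1
  have hD2R : (n : ℝ) < T₀ * q ^ (D + 1) := by rw [hqd]; exact_mod_cast hD2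
  have hDu : (D : ℝ) ≤ u := by
    have h1 : q ^ D ≤ n := by
      have h0 : 0 < q ^ D := by positivity
      exact (le_mul_of_one_le_left h0.le hTR).trans hD1R
    have h2 := Real.log_le_log (by positivity) h1
    rw [Real.log_pow, hlu] at h2
    exact le_of_mul_le_mul_right h2 hL0
  have hDl : u - c₁ ≤ D := by
    have h1 := Real.log_le_log hn0 hD2R.le
    rw [Real.log_mul (by positivity) (by positivity), Real.log_pow, hlu] at h1
    push_cast at h1
    have h2 : u ≤ Real.log T₀ / L + (D + 1) := by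
      rw [← sub_nonneg]
      have h3 : Real.log T₀ / L + (D + 1) - u = (Real.log T₀ + (D + 1) * L - u * L) / L := by
        field_simp
      rw [h3]
      apply div_nonneg _ hL0.le
      linarith
    rw [hc₁]
    linarith
  have hcc1 : c₁ ≤ c := by rw [hc]; linarith
  have hDR : (D : ℝ) ≥ u - c := by linarith
  have huD : u ≤ 2 * D := by linarith
  -- `d₀`
  obtain ⟨v, hv⟩ : ∃ v : ℝ, v = lam * (Real.log (n * L) / L) := ⟨_, rfl⟩
  have hvu : v = lam * u + lam * (Real.log L / L) := by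
    rw [hv, Real.log_mul (by positivity) (by positivity), hlu]
    field_simp
  have habs : |lam * (Real.log L / L)| ≤ c₂ := by
    rw [abs_mul, abs_of_pos (by linarith : 0 < lam), hc₂]
    exact mul_le_mul_of_nonneg_right hl2 (abs_nonneg _)
  have hv1 : lam * u - c₂ ≤ v := by
    rw [hvu]
    have := neg_abs_le (lam * (Real.log L / L))
    linarith
  have hv2 : v ≤ lam * u + c₂ := by
    rw [hvu]
    have := le_abs_self (lam * (Real.log L / L))
    linarith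
  have hu0 : 0 ≤ u := by linarith
  have hlamu : lam * u = 2 * u + (lam - 2) * u := by ring
  have hlamu2 : lam * u ≤ 5 / 2 * u := mul_le_mul_of_nonneg_right hl2 hu0
  have hv0 : 0 ≤ v := by linarith
  have hceil1 : v ≤ (⌈v⌉₊ : ℝ) := Nat.le_ceil v
  have hceil2 : (⌈v⌉₊ : ℝ) < v + 1 := Nat.ceil_lt_add_one hv0
  obtain ⟨d₀, hd₀⟩ : ∃ d₀ : ℕ, ⌈v⌉₊ = d₀ := ⟨_, rfl⟩
  rw [hd₀] at hceil1 hceil2
  have hd2 : 2 * D ≤ d₀ := by
    have : (2 * D : ℝ) ≤ d₀ := by linarith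
    exact_mod_cast this
  have hd3 : d₀ + 7 ≤ 3 * D := by
    have : ((d₀ : ℝ) + 7) ≤ 3 * D := by linarith
    exact_mod_cast this
  have hℓ : (lcmPoly K D).natDegree ≤ 2 * Fintype.card K ^ D := natDegree_lcmPoly_le D
  obtain ⟨R, s, d, hRe, hn', hs, hodd, hmod, hdd₀, hdd7, hsm, hdn, hAR'⟩ :=
    params (Fintype.card K) A N₀ n (lcmPoly K D).natDegree d₀ D hq2 hA (by rw [hT₀]; exact hD1)
      hℓ hd2 hd3
  have hDpow : D < Fintype.card K ^ D := Nat.lt_pow_self (by omega)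
  have hD4A : 4 * A ≤ D := by
    have : (4 * A : ℝ) ≤ D := by linarith
    exact_mod_cast this
  have hD2N : 2 * N₀ ≤ D := by
    have : (2 * N₀ : ℝ) ≤ D := by linarith
    exact_mod_cast this
  have hDAN : 2 * A * (N₀ + 1) ≤ D := by
    have : (2 * A * (N₀ + 1) : ℝ) ≤ D := by linarith
    exact_mod_cast this
  have hz'1 : N₀ + 1 ≤ D / (2 * A) := by
    rw [Nat.le_div_iff_mul_le (by omega)]
    calc (N₀ + 1) * (2 * A) = 2 * A * (N₀ + 1) := by ring
      _ ≤ D := hDAN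
  have hz'2 : D / (2 * A) ≤ D := Nat.div_le_self _ _
  have hz'3 : 2 * (A * (D / (2 * A))) ≤ D := by
    calc 2 * (A * (D / (2 * A))) = (2 * A) * (D / (2 * A)) := by ring
      _ ≤ D := Nat.mul_div_le _ _
  have hdR1 : v ≤ (d : ℝ) := by
    have : (d₀ : ℝ) ≤ d := by exact_mod_cast hdd₀
    linarith
  have hdR2 : (d : ℝ) ≤ v + 8 := by
    have : (d : ℝ) ≤ d₀ + 7 := by exact_mod_cast hdd7
    linarith
  have hDm : D ≤ d / 2 := by omega
  have hzn : Fintype.card K ^ D < n := by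
    have h1 : 0 < Fintype.card K ^ D := by omega
    have h2 : 26 * Fintype.card K ^ D ≤ T₀ * Fintype.card K ^ D :=
      Nat.mul_le_mul_right _ (by omega)
    omega
  obtain ⟨B, hB1, hB2, hB3⟩ := H D s R d n (d / 2) (Fintype.card K ^ D) (D / (2 * A)) (by omega) hRe
    hn' hdn hzn (by omega) (by omega) hs hodd hmod hDm (by omega) hsm (by omega) (by omega)
    (by omega) (by omega) hz'2 (by omega) (by omega) (by omega) (by omega) hAR'
  have hlogn : Real.log (q ^ n) = n * L := by rw [Real.log_pow]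
  have hnL : 0 < (n : ℝ) * L := by positivity
  have hx : Real.log (q ^ n) ^ lam = q ^ v := by
    rw [hlogn, hv, Real.rpow_def_of_pos hnL, Real.rpow_def_of_pos (by linarith : 0 < q), ← hL]
    congr 1
    field_simp
  refine ⟨B, d, hB1, hB2, ?_, ?_, ?_⟩
  · rw [hx, ← Real.rpow_natCast q d]
    exact Real.rpow_le_rpow_of_exponent_le (by linarith) hdR1
  · rw [hx, ← Real.rpow_natCast q d]
    have h1 : q ^ (d : ℝ) ≤ q ^ (v + 8) :=
      Real.rpow_le_rpow_of_exponent_le (by linarith) hdR2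
    have h2 : q ^ (v + 8) = q ^ 8 * q ^ v := by
      rw [Real.rpow_add (by linarith : 0 < q), mul_comm]
      congr 1
      exact_mod_cast Real.rpow_natCast q 8
    have h3 : 0 ≤ C * T₀ * q * (4 + 8 * A) * q ^ v := by positivity
    rw [h2] at h1
    rw [add_mul]
    exact h1.trans (le_add_of_nonneg_right h3)
  · refine hB3.trans ?_
    have hD0 : (0 : ℝ) < D := by
      have : (4 * A : ℝ) ≤ D := by exact_mod_cast hD4A
      linarith
    have hfirst : ((d : ℝ) - 2 * D) / D ≤ 4 * (lam - 2) := by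
      rw [div_le_iff₀ hD0]
      have h1 : (d : ℝ) - 2 * D ≤ 2 * ((lam - 2) * u) := by linarith
      have h2 : (lam - 2) * u ≤ (lam - 2) * (2 * D) := mul_le_mul_of_nonneg_left huD hlm.le
      linarith
    have hm2 : ((d / 2 : ℕ) : ℝ) - D ≤ 2 * (lam - 2) * D := by
      have h1 : (2 * ((d / 2 : ℕ) : ℝ)) ≤ d := by
        exact_mod_cast Nat.mul_div_le d 2
      rw [div_le_iff₀ hD0] at hfirst
      linarith
    have hz'R : (D : ℝ) / (4 * A) ≤ ((D / (2 * A) : ℕ) : ℝ) := by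
      have h1 : D < (D / (2 * A) + 1) * (2 * A) := by
        have := Nat.lt_div_mul_add (a := D) (b := 2 * A) (by omega)
        rw [add_mul, one_mul]
        exact this
      have h2 : (D : ℝ) < (((D / (2 * A) : ℕ) : ℝ) + 1) * (2 * A) := by exact_mod_cast h1
      rw [div_le_iff₀ (by positivity)]
      have h3 : (4 * A : ℝ) ≤ D := by exact_mod_cast hD4A
      linarith only [h2, h3]
    have hz'0 : (0 : ℝ) < ((D / (2 * A) : ℕ) : ℝ) := by
      exact_mod_cast (by omega : 0 < D / (2 * A))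
    have hsecond : (((d / 2 : ℕ) : ℝ) - D) / ((D / (2 * A) : ℕ) : ℝ) ≤ 8 * A * (lam - 2) := by
      rw [div_le_iff₀ hz'0]
      have h1 : 8 * A * (lam - 2) * ((D : ℝ) / (4 * A)) ≤
          8 * A * (lam - 2) * ((D / (2 * A) : ℕ) : ℝ) :=
        mul_le_mul_of_nonneg_left hz'R (by positivity)
      have h2 : 8 * A * (lam - 2) * ((D : ℝ) / (4 * A)) = 2 * (lam - 2) * D := by
        field_simp
        ring
      linarith
    have hzR : q ^ d / ((Fintype.card K ^ D : ℕ) : ℝ) ≤ T₀ * q * (q ^ d / n) := by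
      push_cast
      rw [← hqd, div_le_iff₀ (by positivity)]
      have h1 : (n : ℝ) ≤ T₀ * q * q ^ D := by
        have h2 : T₀ * q * q ^ D = T₀ * q ^ (D + 1) := by rw [pow_succ]; ring
        linarith
      calc q ^ d = q ^ d / n * n := by field_simp
        _ ≤ q ^ d / n * (T₀ * q * q ^ D) := mul_le_mul_of_nonneg_left h1 (by positivity)
        _ = T₀ * q * (q ^ d / n) * q ^ D := by ring
    have hsum0 : 0 ≤ ((d : ℝ) - 2 * D) / D +
        (((d / 2 : ℕ) : ℝ) - D) / ((D / (2 * A) : ℕ) : ℝ) := by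
      apply add_nonneg
      · apply div_nonneg _ hD0.le
        have : (2 * (D : ℝ)) ≤ d := by exact_mod_cast (by omega : 2 * D ≤ d)
        linarith
      · apply div_nonneg _ hz'0.le
        have : (D : ℝ) ≤ ((d / 2 : ℕ) : ℝ) := by exact_mod_cast hDm
        linarith
    calc C * q ^ d / ((Fintype.card K ^ D : ℕ) : ℝ) * (((d : ℝ) - 2 * D) / D +
          (((d / 2 : ℕ) : ℝ) - D) / ((D / (2 * A) : ℕ) : ℝ)) =
        C * (q ^ d / ((Fintype.card K ^ D : ℕ) : ℝ)) * (((d : ℝ) - 2 * D) / D +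
          (((d / 2 : ℕ) : ℝ) - D) / ((D / (2 * A) : ℕ) : ℝ)) := by ring
      _ ≤ C * (T₀ * q * (q ^ d / n)) * (4 * (lam - 2) + 8 * A * (lam - 2)) := by
          apply mul_le_mul _ (by linarith) hsum0 (by positivity)
          exact mul_le_mul_of_nonneg_left hzR (by linarith)
      _ = (C * T₀ * q * (4 + 8 * A)) * (lam - 2) * (q ^ d / n) := by ring
      _ ≤ (q ^ 8 + C * T₀ * q * (4 + 8 * A)) * (lam - 2) * (q ^ d / n) := by
          have h1 : 0 ≤ q ^ 8 * (lam - 2) * (q ^ d / n) := by positivity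
          have h2 : (q ^ 8 + C * T₀ * q * (4 + 8 * A)) * (lam - 2) * (q ^ d / n) =
            q ^ 8 * (lam - 2) * (q ^ d / n) +
              (C * T₀ * q * (4 + 8 * A)) * (lam - 2) * (q ^ d / n) := by ring
          rw [h2]
          exact le_add_of_nonneg_left h1

end Pool.Agent.H524.SI
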