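import Pool.Agent.H524.SI.Sv

/-!
# Subintervals
-/

set_option autoImplicit false
set_option linter.all false

namespace Pool.Agent.H524.SI

open Polynomial
open scoped Classical
open Pool.Agent.H694.Typ (Mn mem_Mn card_Mn)

/-- Some subinterval contains at most the mean number. -/
theorem subinterval (K : Type) [Field K] [Fintype K] (B : K[X]) (n h' h : ℕ) (hB : B.Monic)
    (hBn : B.natDegree = n) (hh : h ≤ h') (hn : h' ≤ n) (κ : ℝ)
    (hκ : ({P : K[X] | (P - B).degree < (h' : WithBot ℕ) ∧ Irreducible P}.ncard : ℝ) ≤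
      κ * (Fintype.card K : ℝ) ^ h') :
    ∃ A : K[X], A.Monic ∧ A.natDegree = n ∧
      ({P : K[X] | (P - A).degree < (h : WithBot ℕ) ∧ Irreducible P}.ncard : ℝ) ≤
      κ * (Fintype.card K : ℝ) ^ h := by
  obtain ⟨t, rfl⟩ : ∃ t, h' = h + t := ⟨h' - h, by omega⟩
  have hq : (0 : ℝ) < (Fintype.card K : ℝ) := by exact_mod_cast Fintype.card_pos
  set S : Set K[X] := {P : K[X] | (P - B).degree < ((h + t : ℕ) : WithBot ℕ) ∧ Irreducible P}
    with hS
  have hSf : S.Finite := by
    apply Set.Finite.subset (Finset.finite_toSet ((Mn K (h + t)).image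
      (fun f => f - X ^ (h + t) + B)))
    rintro P ⟨hP, -⟩
    rw [Finset.coe_image, Set.mem_image]
    refine ⟨P - B + X ^ (h + t), ?_, by ring⟩
    have h1 : (P - B).degree < (X ^ (h + t) : K[X]).degree := by
      rw [degree_X_pow]; exact hP
    rw [Finset.mem_coe, mem_Mn]
    exact ⟨(monic_X_pow _).add_of_right h1, by
      rw [natDegree_add_eq_right_of_degree_lt h1, natDegree_X_pow]⟩
  set F : Finset K[X] := hSf.toFinset with hF
  have hFc : (F.card : ℝ) ≤ κ * (Fintype.card K : ℝ) ^ (h + t) := by
    rw [hF, ← Set.ncard_eq_toFinset_card S hSf]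
    exact hκ
  have hXm : (X ^ h : K[X]).Monic := monic_X_pow h
  -- the map to the subintervals
  have hmaps : ∀ P ∈ F, ((P - B) /ₘ X ^ h) + X ^ t ∈ Mn K t := by
    intro P hP
    rw [hF, Set.Finite.mem_toFinset] at hP
    have h1 : ((P - B) /ₘ X ^ h).degree < (X ^ t : K[X]).degree := by
      rw [degree_X_pow]
      by_cases h0 : (P - B) /ₘ X ^ h = 0
      · rw [h0, degree_zero]
        exact WithBot.bot_lt_coe _
      · have hPB0 : P - B ≠ 0 := by
          intro h2
          rw [h2, zero_divByMonic] at h0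
          exact h0 rfl
        rw [degree_eq_natDegree h0, natDegree_divByMonic _ hXm, natDegree_X_pow]
        have h3 := hP.1
        rw [degree_eq_natDegree hPB0] at h3
        have h4 : (P - B).natDegree < h + t := by exact_mod_cast h3
        have h5 : h ≤ (P - B).natDegree := by
          by_contra h6
          apply h0
          rw [divByMonic_eq_zero_iff hXm, degree_X_pow, degree_eq_natDegree hPB0]
          exact_mod_cast not_le.1 h6
        exact_mod_cast (by omega : (P - B).natDegree - h < t)
    rw [mem_Mn]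
    exact ⟨(monic_X_pow _).add_of_right h1, by
      rw [natDegree_add_eq_right_of_degree_lt h1, natDegree_X_pow]⟩
  have hsum := Finset.card_eq_sum_card_fiberwise hmaps
  obtain ⟨b, hb, hble⟩ : ∃ b ∈ Mn K t,
      ((F.filter (fun P => ((P - B) /ₘ X ^ h) + X ^ t = b)).card : ℝ) ≤
        κ * (Fintype.card K : ℝ) ^ h := by
    by_contra hcon
    push Not at hcon
    have hne : (Mn K t).Nonempty := by
      rw [← Finset.card_pos, card_Mn]
      exact pow_pos Fintype.card_pos _
    have h1 := Finset.sum_lt_sum_of_nonempty hne hcon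
    rw [Finset.sum_const, card_Mn, nsmul_eq_mul] at h1
    have h2 : (F.card : ℝ) = ∑ b ∈ Mn K t,
        ((F.filter (fun P => ((P - B) /ₘ X ^ h) + X ^ t = b)).card : ℝ) := by
      exact_mod_cast hsum
    rw [← h2] at h1
    have h3 := lt_of_lt_of_le h1 hFc
    push_cast at h3
    rw [pow_add] at h3
    have h4 : (Fintype.card K : ℝ) ^ t * (κ * (Fintype.card K : ℝ) ^ h) =
      κ * ((Fintype.card K : ℝ) ^ h * (Fintype.card K : ℝ) ^ t) := by ring
    rw [h4] at h3
    exact lt_irrefl _ h3
  rw [mem_Mn] at hb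
  have hbt : (b - X ^ t).degree < (t : WithBot ℕ) := by
    have h1 : b.degree = (X ^ t : K[X]).degree := by
      rw [degree_X_pow, degree_eq_natDegree hb.1.ne_zero, hb.2]
    have h2 := degree_sub_lt h1 hb.1.ne_zero (by rw [hb.1.leadingCoeff, (monic_X_pow t).leadingCoeff])
    rwa [degree_eq_natDegree hb.1.ne_zero, hb.2] at h2
  have hprod : (X ^ h * (b - X ^ t)).degree < ((h + t : ℕ) : WithBot ℕ) := by
    by_cases h0 : b - X ^ t = 0
    · rw [h0, mul_zero, degree_zero]
      exact WithBot.bot_lt_coe _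
    · rw [degree_eq_natDegree h0] at hbt
      have h1 : (b - X ^ t).natDegree < t := by exact_mod_cast hbt
      rw [degree_mul, degree_X_pow, degree_eq_natDegree h0]
      exact_mod_cast (by omega : h + (b - X ^ t).natDegree < h + t)
  have hBd : (X ^ h * (b - X ^ t)).degree < B.degree := by
    rw [degree_eq_natDegree hB.ne_zero, hBn]
    exact lt_of_lt_of_le hprod (by exact_mod_cast hn)
  refine ⟨B + X ^ h * (b - X ^ t), hB.add_of_left hBd, ?_, ?_⟩
  · rw [natDegree_add_eq_left_of_degree_lt hBd, hBn]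
  · refine le_trans ?_ hble
    have hsub : {P : K[X] | (P - (B + X ^ h * (b - X ^ t))).degree < (h : WithBot ℕ) ∧
        Irreducible P} ⊆ ((F.filter (fun P => ((P - B) /ₘ X ^ h) + X ^ t = b) : Finset K[X]) :
          Set K[X]) := by
      rintro P ⟨hP1, hP2⟩
      rw [Finset.mem_coe, Finset.mem_filter, hF, Set.Finite.mem_toFinset]
      have heq : P - B = X ^ h * (b - X ^ t) + (P - (B + X ^ h * (b - X ^ t))) := by ring
      refine ⟨⟨?_, hP2⟩, ?_⟩
      · rw [heq]
        exact lt_of_le_of_lt (degree_add_le _ _) (max_lt hprod (lt_of_lt_of_le hP1 (by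
          exact_mod_cast Nat.le_add_right h t)))
      · have hu := div_modByMonic_unique (f := P - B) (g := X ^ h) (b - X ^ t)
          (P - (B + X ^ h * (b - X ^ t))) hXm ⟨by rw [add_comm]; exact heq.symm, by
            rw [degree_X_pow]; exact hP1⟩
        rw [hu.1]
        ring
    have h3 := Set.ncard_le_ncard hsub (Finset.finite_toSet _)
    rw [Set.ncard_coe_finset] at h3
    exact_mod_cast h3

end Pool.Agent.H524.SI
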