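import Pool.Agent.H524.SI.Fin
import Pool.Agent.H524.SI.Sub

/-!
# Short intervals with few irreducible polynomials: all lengths up to the square
-/

set_option autoImplicit false
set_option linter.all false

namespace Pool.Agent.H524.SI

open Polynomial Filter Topology
open scoped Classical

/-- All lengths at most `T (log X) ^ 2`. -/
theorem short (K : Type) [Field K] [Fintype K] [CharP K 2] (T ε : ℝ) (hT : 0 < T) (hε : 0 < ε) :
    ∃ n₀ : ℕ, ∀ n : ℕ, n₀ ≤ n → ∀ h : ℕ,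
      (Fintype.card K : ℝ) ^ h ≤ T * Real.log ((Fintype.card K : ℝ) ^ n) ^ 2 →
      ∃ A : K[X], A.Monic ∧ A.natDegree = n ∧
        ({P : K[X] | (P - A).degree < (h : WithBot ℕ) ∧ Irreducible P}.ncard : ℝ) ≤
          ε * ((Fintype.card K : ℝ) ^ h / n) := by
  obtain ⟨C, hC, H⟩ := main K
  have hq2 : 2 ≤ Fintype.card K := Fintype.one_lt_card
  have hq : (2 : ℝ) ≤ (Fintype.card K : ℝ) := by exact_mod_cast hq2
  obtain ⟨q, hqd⟩ : ∃ q : ℝ, (Fintype.card K : ℝ) = q := ⟨_, rfl⟩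
  simp only [hqd] at H hq ⊢
  obtain ⟨L, hL⟩ : ∃ L : ℝ, Real.log q = L := ⟨_, rfl⟩
  have hL0 : 0 < L := by rw [← hL]; exact Real.log_pos (by linarith)
  obtain ⟨δ, hδ⟩ : ∃ δ : ℝ, δ = min (1 / 2) (ε / C) := ⟨_, rfl⟩
  have hδ0 : 0 < δ := by rw [hδ]; exact lt_min (by norm_num) (by positivity)
  have hδ1 : δ ≤ 1 / 2 := by rw [hδ]; exact min_le_left _ _
  have hδ2 : C * δ ≤ ε := by
    have h1 : δ ≤ ε / C := by rw [hδ]; exact min_le_right _ _
    rwa [le_div_iff₀ hC, mul_comm] at h1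
  obtain ⟨n₁, H1⟩ := H (2 + δ) (by linarith) (by linarith)
  have ht1 : Tendsto (fun n : ℕ => (n : ℝ) * L) atTop atTop :=
    tendsto_natCast_atTop_atTop.atTop_mul_const hL0
  have hev1 : ∀ᶠ n : ℕ in atTop, T ≤ ((n : ℝ) * L) ^ δ :=
    ((tendsto_rpow_atTop hδ0).comp ht1).eventually_ge_atTop T
  have hev2 : ∀ᶠ n : ℕ in atTop, 1 ≤ (n : ℝ) * L := ht1.eventually_ge_atTop 1
  have hev3 : ∀ᶠ n : ℕ in atTop, C * L ^ 3 * ((n : ℝ) ^ 3 / q ^ n) < 1 := by
    have h1 := (tendsto_pow_const_div_const_pow_of_one_lt 3 (by linarith : 1 < q)).const_mul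
      (C * L ^ 3)
    rw [mul_zero] at h1
    exact h1.eventually_lt_const one_pos
  obtain ⟨n₂, hn₂⟩ := eventually_atTop.1 (hev1.and (hev2.and hev3))
  refine ⟨max n₁ (max n₂ 1), fun n hn h hh => ?_⟩
  obtain ⟨B, h', hB, hBn, hlo, hup, hcnt⟩ := H1 n (le_trans (le_max_left _ _) hn)
  obtain ⟨h1, h2, h3⟩ := hn₂ n (le_trans (le_trans (le_max_left _ _) (le_max_right _ _)) hn)
  have hn1 : 1 ≤ n := le_trans (le_trans (le_max_right _ _) (le_max_right _ _)) hn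
  have hn0 : (0 : ℝ) < n := by exact_mod_cast hn1
  have hlogn : Real.log (q ^ n) = n * L := by rw [Real.log_pow, hL]
  rw [hlogn] at hlo hup hh
  have hx0 : (0 : ℝ) < n * L := by linarith
  have hpow : ((n : ℝ) * L) ^ (2 + δ) = ((n : ℝ) * L) ^ 2 * ((n : ℝ) * L) ^ δ := by
    rw [Real.rpow_add hx0]
    congr 1
    exact_mod_cast Real.rpow_natCast ((n : ℝ) * L) 2
  have hhh : q ^ h ≤ q ^ h' := by
    refine hh.trans (le_trans ?_ hlo)
    rw [hpow, mul_comm T]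
    exact mul_le_mul_of_nonneg_left h1 (by positivity)
  have hhle : h ≤ h' := (pow_le_pow_iff_right₀ (by linarith : 1 < q)).1 hhh
  have hle3 : ((n : ℝ) * L) ^ (2 + δ) ≤ ((n : ℝ) * L) ^ 3 := by
    have h4 : ((n : ℝ) * L) ^ (2 + δ) ≤ ((n : ℝ) * L) ^ ((3 : ℕ) : ℝ) :=
      Real.rpow_le_rpow_of_exponent_le h2 (by push_cast; linarith)
    rwa [Real.rpow_natCast] at h4
  have hlt : q ^ h' < q ^ n := by
    have h4 : q ^ h' ≤ C * ((n : ℝ) * L) ^ 3 :=
      hup.trans (mul_le_mul_of_nonneg_left hle3 hC.le)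
    have h5 : C * ((n : ℝ) * L) ^ 3 < q ^ n := by
      have h6 : 0 < q ^ n := by positivity
      have h7 : C * L ^ 3 * ((n : ℝ) ^ 3 / q ^ n) = C * ((n : ℝ) * L) ^ 3 / q ^ n := by ring
      rw [h7, div_lt_one h6] at h3
      exact h3
    exact lt_of_le_of_lt h4 h5
  have hh'n : h' ≤ n := ((pow_lt_pow_iff_right₀ (by linarith : 1 < q)).1 hlt).le
  obtain ⟨A, hA1, hA2, hA3⟩ := subinterval K B n h' h hB hBn hhle hh'n (ε / n) (by
    rw [hqd]
    refine hcnt.trans ?_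
    have h8 : C * (2 + δ - 2) * (q ^ h' / n) = (C * δ) * (q ^ h' / n) := by ring
    rw [h8]
    calc (C * δ) * (q ^ h' / n) ≤ ε * (q ^ h' / n) :=
          mul_le_mul_of_nonneg_right hδ2 (by positivity)
      _ = ε / n * q ^ h' := by ring)
  refine ⟨A, hA1, hA2, ?_⟩
  rw [hqd] at hA3
  refine hA3.trans (le_of_eq ?_)
  ring

end Pool.Agent.H524.SI
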