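import Pool.Agent.H524.SI.Sv

/-!
# The local data of `U a ^ (2 ^ j) + V`
-/

set_option autoImplicit false
set_option linter.all false

namespace Pool.Agent.H524.SI

open Polynomial Pool.Agent.H524.MT
open scoped Classical
open Pool.Agent.H985.KP (PA)
open Pool.Agent.H694.Typ (Mn PU Irn mem_Mn card_Mn mem_PU mem_Irn irn_one_le)

variable {K : Type} [Field K] [Fintype K] [CharP K 2]

/-- One root modulo a prime. -/
theorem one_root (j : ℕ) (P U V : K[X]) (hPm : P.Monic) (hP : Irreducible P) (hU : ¬ P ∣ U) :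
    {c : K[X] | c.degree < P.degree ∧ P ∣ U * c ^ (2 ^ j) + V}.ncard = 1 := by
  haveI hfact : Fact (Irreducible P) := ⟨hP⟩
  haveI hmf : Module.Finite K (AdjoinRoot P) := (AdjoinRoot.powerBasis hP.ne_zero).finite
  haveI hfin : Finite (AdjoinRoot P) := Module.finite_of_finite K
  haveI hchar : CharP (AdjoinRoot P) 2 := charP_of_injective_algebraMap' K 2
  haveI hcharX : CharP K[X] 2 := inferInstance
  haveI : Fact (Nat.Prime 2) := ⟨Nat.prime_two⟩
  have hw : AdjoinRoot.mk P U ≠ 0 := by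
    intro h
    exact hU (AdjoinRoot.mk_eq_zero.1 h)
  have hinj : Function.Injective
      (fun x : AdjoinRoot P => AdjoinRoot.mk P U * x ^ (2 ^ j) + AdjoinRoot.mk P V) := by
    intro x y hxy
    have h1 : AdjoinRoot.mk P U * x ^ (2 ^ j) = AdjoinRoot.mk P U * y ^ (2 ^ j) :=
      add_right_cancel hxy
    have h2 : x ^ (2 ^ j) = y ^ (2 ^ j) := mul_left_cancel₀ hw h1
    have h3 : (x - y) ^ (2 ^ j) = 0 := by
      rw [sub_pow_char_pow, h2, sub_self]
    exact sub_eq_zero.1 (pow_eq_zero_iff (by positivity) |>.1 h3)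
  obtain ⟨x, hx⟩ := (Finite.injective_iff_surjective.1 hinj) 0
  obtain ⟨c, rfl⟩ := AdjoinRoot.mk_surjective (g := P) x
  rw [Set.ncard_eq_one]
  refine ⟨c %ₘ P, ?_⟩
  have hc0 : P ∣ U * (c %ₘ P) ^ (2 ^ j) + V := by
    rw [← AdjoinRoot.mk_eq_zero, map_add, map_mul, map_pow]
    have h4 : AdjoinRoot.mk P (c %ₘ P) = AdjoinRoot.mk P c := by
      rw [AdjoinRoot.mk_eq_mk]
      exact ⟨-(c /ₘ P), by
        have h5 := modByMonic_add_div c P
        linear_combination h5⟩
    rw [h4]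
    exact hx
  ext c'
  simp only [Set.mem_setOf_eq, Set.mem_singleton_iff]
  constructor
  · rintro ⟨h5, h6⟩
    have h7 : P ∣ U * (c' - c %ₘ P) ^ (2 ^ j) := by
      rw [sub_pow_char_pow]
      have h8 : U * (c' ^ 2 ^ j - (c %ₘ P) ^ 2 ^ j) =
        (U * c' ^ 2 ^ j + V) - (U * (c %ₘ P) ^ 2 ^ j + V) := by ring
      rw [h8]
      exact dvd_sub h6 hc0
    have h9 : P ∣ c' - c %ₘ P := by
      rcases hP.prime.dvd_or_dvd h7 with h | h
      · exact absurd h hU
      · exact hP.prime.dvd_of_dvd_pow h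
    have h10 : (c' - c %ₘ P).degree < P.degree :=
      lt_of_le_of_lt (degree_sub_le _ _) (max_lt h5 (degree_modByMonic_lt c hPm))
    exact sub_eq_zero.1 (eq_zero_of_dvd_of_degree_lt h9 h10)
  · rintro rfl
    exact ⟨degree_modByMonic_lt c hPm, hc0⟩

/-- The modulus of the small primes. -/
noncomputable def M₀ (K : Type) [Field K] [Fintype K] : K[X] := lcmPoly K 6

theorem M₀_monic : (M₀ K).Monic := monic_lcmPoly K 6

theorem big_of_not_dvd (P : K[X]) (hP : Irreducible P) (h : ¬ P ∣ M₀ K) :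
    7 ≤ P.natDegree := by
  by_contra h1
  exact h (dvd_lcmPoly P hP.ne_zero (by omega))

theorem X_dvd_M₀ : (X : K[X]) ∣ M₀ K := dvd_lcmPoly X X_ne_zero (by rw [natDegree_X]; omega)

theorem loc_aux (j D : ℕ) (U V : K[X])
    (h1 : ∀ P : K[X], P.Monic → Irreducible P → ¬ P ∣ M₀ K → D < P.natDegree → ¬ P ∣ U)
    (h2 : ∀ P : K[X], P.Monic → Irreducible P → ¬ P ∣ M₀ K → P.natDegree ≤ D →
      P ∣ U ∧ ¬ P ∣ V) :
    Loc (M₀ K) (fun P a => P ∣ U * a ^ (2 ^ j) + V) (fun P => if D < P.natDegree then 1 else 0)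
      1 := by
  have hq : 2 ≤ Fintype.card K := Fintype.one_lt_card
  refine ⟨?_, ?_, ?_, ?_⟩
  · intro P a u
    have h3 : P ∣ (a + P * u) ^ (2 ^ j) - a ^ (2 ^ j) := by
      refine Dvd.dvd.trans ?_ (sub_dvd_pow_sub_pow _ _ _)
      rw [add_sub_cancel_left]
      exact dvd_mul_right _ _
    have h4 : U * (a + P * u) ^ (2 ^ j) + V =
      (U * a ^ (2 ^ j) + V) + U * ((a + P * u) ^ (2 ^ j) - a ^ (2 ^ j)) := by ring
    show P ∣ U * (a + P * u) ^ (2 ^ j) + V ↔ P ∣ U * a ^ (2 ^ j) + V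
    rw [h4]
    exact (dvd_add_left (dvd_mul_of_dvd_right h3 U))
  · intro P hPm hP hPM
    by_cases h : D < P.natDegree
    · simp only [h, if_true]
      exact one_root j P U V hPm hP (h1 P hPm hP hPM h)
    · simp only [h, if_false]
      obtain ⟨h5, h6⟩ := h2 P hPm hP hPM (by omega)
      have h8 : {c : K[X] | c.degree < P.degree ∧ P ∣ U * c ^ (2 ^ j) + V} = ∅ := by
        rw [Set.eq_empty_iff_forall_notMem]
        rintro c ⟨-, hc⟩
        exact h6 ((dvd_add_right (dvd_mul_of_dvd_left h5 _)).1 hc)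
      rw [h8, Set.ncard_empty]
  · intro P
    show (if D < P.natDegree then 1 else 0) ≤ 1
    split_ifs <;> omega
  · intro P _ hP hPM
    have h7 := big_of_not_dvd P hP hPM
    calc 16 * (1 + 2) ≤ 2 ^ 7 := by norm_num
      _ ≤ 2 ^ P.natDegree := Nat.pow_le_pow_right (by norm_num) h7
      _ ≤ Fintype.card K ^ P.natDegree := Nat.pow_le_pow_left hq _

end Pool.Agent.H524.SI
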