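import Pool.Agent.H524.MT.One
import Pool.Agent.H524.MT.Exp
import Pool.Agent.H524.MT.Bhk
import Pool.Agent.H524.MT.Mert
import Pool.Agent.H524.Sieve

/-!
# An upper bound sieve of dimension one over `F_q[X]`
-/

set_option autoImplicit false
set_option linter.all false

namespace Pool.Agent.H524.SI

open Polynomial Pool.Agent.H524.MT
open scoped Classical
open Pool.Agent.H985.KP (PA)
open Pool.Agent.H694.Typ (Mn PU Irn mem_Mn card_Mn mem_PU mem_Irn irn_one_le)

/-- The upper bound sieve in one residue class. -/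
theorem sieve_class (K : Type) [Field K] [Fintype K] : ∃ A : ℕ, 1 ≤ A ∧
    ∀ (M : K[X]) (Rt : K[X] → K[X] → Prop) (r : K[X] → ℕ), M.Monic → Loc M Rt r 1 →
    ∀ (a₀ : K[X]) (k z : ℕ), M.natDegree ≤ z → 1 ≤ z → A * z + M.natDegree ≤ k →
      (((Ac K k M a₀).filter (fun a => ∀ P ∈ PS K M z, ¬ Rt P a)).card : ℝ) ≤
        (Fintype.card K : ℝ) ^ k / (Fintype.card K : ℝ) ^ M.natDegree * (2 * VR M z r) := by
  obtain ⟨A, hA, H⟩ := bhk K 3
  refine ⟨A, hA, fun M Rt r hM hL a₀ k z hMz hz hk => ?_⟩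
  obtain ⟨Vm, Vp, hBH⟩ := H z hz
  have hRW : RW (K := K) z 0 1 ({()} : Finset Unit) (fun _ => (1 : K[X])) (fun _ => 0) (fun _ => 1) := by
    refine ⟨fun _ _ => monic_one, fun _ _ => squarefree_one, ?_, fun _ _ => by simp, by simp, by simp, ?_⟩
    · intro x _ P hP
      exact absurd (isUnit_of_dvd_one hP.2.2) hP.2.1.not_isUnit
    · intro a
      unfold rwt
      exact Finset.sum_nonneg (fun _ _ => zero_le_one)
  obtain ⟨h0, h1⟩ := One.tone Exp.expw K 1 M Rt r a₀ k z A 0 1 Vm Vp Unit {()} (fun _ => 1)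
    (fun _ => 0) (fun _ => 1) hM hL hMz hBH (by omega) hRW
  have h2 : ∀ a : K[X], rwt ({()} : Finset Unit) (fun _ => (1 : K[X])) (fun _ => 0) (fun _ => 1) a = 1 := by
    intro a
    unfold rwt
    simp
  have h3 : QQ (K := K) ({()} : Finset Unit) (fun _ => (1 : K[X])) (fun _ => 1) = 1 := by
    unfold QQ
    simp
  simp only [h2, h3, mul_one, Finset.sum_const, nsmul_eq_mul] at h1
  exact h1

/-- The upper bound sieve for all monic polynomials of degree `k`. -/
theorem sieve_all (K : Type) [Field K] [Fintype K] : ∃ A : ℕ, 1 ≤ A ∧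
    ∀ (M : K[X]) (Rt : K[X] → K[X] → Prop) (r : K[X] → ℕ), M.Monic → Loc M Rt r 1 →
    ∀ (k z : ℕ), M.natDegree ≤ z → 1 ≤ z → A * z + M.natDegree ≤ k →
      (((Mn K k).filter (fun a => ∀ P ∈ PS K M z, ¬ Rt P a)).card : ℝ) ≤
        (Fintype.card K : ℝ) ^ k * (2 * VR M z r) := by
  obtain ⟨A, hA, H⟩ := sieve_class K
  refine ⟨A, hA, fun M Rt r hM hL k z hMz hz hk => ?_⟩
  have hq : (0 : ℝ) < (Fintype.card K : ℝ) := by exact_mod_cast Fintype.card_pos
  have hmaps : ∀ a ∈ (Mn K k).filter (fun a => ∀ P ∈ PS K M z, ¬ Rt P a),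
      (a %ₘ M) + X ^ M.natDegree ∈ Mn K M.natDegree := by
    intro a _
    have h1 : (a %ₘ M).degree < (X ^ M.natDegree : K[X]).degree := by
      rw [degree_X_pow, ← degree_eq_natDegree hM.ne_zero]
      exact degree_modByMonic_lt a hM
    rw [mem_Mn]
    constructor
    · exact (monic_X_pow _).add_of_right h1
    · rw [natDegree_add_eq_right_of_degree_lt h1, natDegree_X_pow]
  have h1 := Finset.card_eq_sum_card_fiberwise hmaps
  have h2 : ∀ b ∈ Mn K M.natDegree,
      ((((Mn K k).filter (fun a => ∀ P ∈ PS K M z, ¬ Rt P a)).filter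
        (fun a => (a %ₘ M) + X ^ M.natDegree = b)).card : ℝ) ≤
      (Fintype.card K : ℝ) ^ k / (Fintype.card K : ℝ) ^ M.natDegree * (2 * VR M z r) := by
    intro b _
    refine le_trans ?_ (H M Rt r hM hL (b - X ^ M.natDegree) k z hMz hz hk)
    have h3 : ((Mn K k).filter (fun a => ∀ P ∈ PS K M z, ¬ Rt P a)).filter
        (fun a => (a %ₘ M) + X ^ M.natDegree = b) ⊆
        (Ac K k M (b - X ^ M.natDegree)).filter (fun a => ∀ P ∈ PS K M z, ¬ Rt P a) := by
      intro a ha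
      rw [Finset.mem_filter, Finset.mem_filter] at ha
      obtain ⟨⟨ha1, ha2⟩, ha3⟩ := ha
      rw [Finset.mem_filter]
      refine ⟨?_, ha2⟩
      unfold Ac
      rw [Finset.mem_filter]
      refine ⟨ha1, ?_⟩
      have h4 : a - (b - X ^ M.natDegree) = a - a %ₘ M := by
        rw [← ha3]; ring
      rw [h4]
      exact ⟨a /ₘ M, by
        have h5 := modByMonic_add_div a M
        linear_combination (-1 : K[X]) * h5⟩
    exact_mod_cast Finset.card_le_card h3
  rw [h1]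
  push_cast
  refine (Finset.sum_le_sum h2).trans ?_
  rw [Finset.sum_const, card_Mn, nsmul_eq_mul]
  push_cast
  have h6 : (Fintype.card K : ℝ) ^ M.natDegree ≠ 0 := by positivity
  apply le_of_eq
  field_simp

/-- The product of the densities. -/
theorem VR_le (K : Type) [Field K] [Fintype K] : ∃ C : ℝ, 1 ≤ C ∧ ∀ (M : K[X]) (z D T : ℕ),
    M ≠ 0 → 1 ≤ z → 1 ≤ T → M.natDegree ≤ T → D ≤ T →
    VR M z (fun P => if D < P.natDegree then 1 else 0) ≤ C * T / z := by
  obtain ⟨C, hC, h1, -⟩ := mert K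
  refine ⟨C, hC, fun M z D T hM hz hT hMT hDT => ?_⟩
  have hq : (2 : ℝ) ≤ (Fintype.card K : ℝ) := by
    exact_mod_cast (Fintype.one_lt_card (α := K))
  have hfac : ∀ n : ℕ, ∀ P ∈ PU K n, 0 < 1 - 1 / (Fintype.card K : ℝ) ^ P.natDegree ∧
      1 - 1 / (Fintype.card K : ℝ) ^ P.natDegree ≤ 1 := by
    intro n P hP
    rw [mem_PU] at hP
    have h2 : (2 : ℝ) ≤ (Fintype.card K : ℝ) ^ P.natDegree := by
      calc (2 : ℝ) ≤ (Fintype.card K : ℝ) := hq
        _ = (Fintype.card K : ℝ) ^ 1 := (pow_one _).symm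
        _ ≤ _ := pow_le_pow_right₀ (by linarith) hP.2.1.natDegree_pos
    have h3 : 1 / (Fintype.card K : ℝ) ^ P.natDegree ≤ 1 / 2 :=
      one_div_le_one_div_of_le (by norm_num) h2
    have h4 : 0 < 1 / (Fintype.card K : ℝ) ^ P.natDegree := by positivity
    constructor <;> linarith
  set f : K[X] → ℝ := fun P => 1 - 1 / (Fintype.card K : ℝ) ^ P.natDegree with hf
  have hpos : ∀ n : ℕ, 0 < ∏ P ∈ PU K n, f P := fun n =>
    Finset.prod_pos (fun P hP => (hfac n P hP).1)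
  have hinv : ∀ n : ℕ, ∏ P ∈ PU K n, (1 - 1 / (Fintype.card K : ℝ) ^ P.natDegree)⁻¹ =
      (∏ P ∈ PU K n, f P)⁻¹ := by
    intro n
    rw [Finset.prod_inv_distrib]
  have hz1 : ∏ P ∈ PU K z, f P ≤ 1 / z := by
    have h2 := (h1 z hz).1
    rw [hinv] at h2
    have hz0 : (0 : ℝ) < z := by exact_mod_cast hz
    rw [le_div_iff₀ hz0]
    have h3 := mul_le_mul_of_nonneg_left h2 (hpos z).le
    rw [mul_inv_cancel₀ (hpos z).ne'] at h3
    exact h3
  have hT1 : 1 ≤ C * T * ∏ P ∈ PU K T, f P := by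
    have h2 := (h1 T hT).2
    rw [hinv] at h2
    have h3 := mul_le_mul_of_nonneg_right h2 (hpos T).le
    rw [inv_mul_cancel₀ (hpos T).ne'] at h3
    exact h3
  -- the splitting
  set hi : Finset K[X] := (PU K z).filter (fun P => ¬ P ∣ M ∧ D < P.natDegree) with hhi
  set lo : Finset K[X] := (PU K z).filter (fun P => ¬ (¬ P ∣ M ∧ D < P.natDegree)) with hlo
  have hVR : VR M z (fun P => if D < P.natDegree then 1 else 0) = ∏ P ∈ hi, f P := by
    unfold VR PS
    rw [hhi, ← Finset.filter_filter, Finset.prod_filter (s := (PU K z).filter (fun P => ¬ P ∣ M))]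
    apply Finset.prod_congr rfl
    intro P _
    by_cases h : D < P.natDegree
    · simp [h, hf]
    · simp [h]
  have hsplit : (∏ P ∈ hi, f P) * (∏ P ∈ lo, f P) = ∏ P ∈ PU K z, f P :=
    Finset.prod_filter_mul_prod_filter_not _ _ _
  have hlosub : lo ⊆ PU K T := by
    intro P hP
    rw [hlo, Finset.mem_filter, mem_PU] at hP
    obtain ⟨⟨hP1, hP2, hP3⟩, hP4⟩ := hP
    rw [mem_PU]
    refine ⟨hP1, hP2, ?_⟩
    by_cases h : P ∣ M
    · exact (natDegree_le_of_dvd h hM).trans hMT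
    · have h5 : ¬ D < P.natDegree := fun h6 => hP4 ⟨h, h6⟩
      omega
  have hloge : ∏ P ∈ PU K T, f P ≤ ∏ P ∈ lo, f P := by
    rw [← Finset.prod_sdiff hlosub]
    have h5 : ∏ P ∈ PU K T \ lo, f P ≤ 1 :=
      Finset.prod_le_one (fun P hP => (hfac T P (Finset.mem_sdiff.1 hP).1).1.le)
        (fun P hP => (hfac T P (Finset.mem_sdiff.1 hP).1).2)
    have h6 : 0 ≤ ∏ P ∈ lo, f P :=
      Finset.prod_nonneg (fun P hP => (hfac T P (hlosub hP)).1.le)
    nlinarith
  have hhi0 : 0 ≤ ∏ P ∈ hi, f P :=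
    Finset.prod_nonneg (fun P hP => (hfac z P (Finset.mem_filter.1 hP).1).1.le)
  rw [hVR]
  have hCT : 0 ≤ C * T := by positivity
  calc ∏ P ∈ hi, f P ≤ (∏ P ∈ hi, f P) * (C * T * ∏ P ∈ PU K T, f P) :=
        le_mul_of_one_le_right hhi0 hT1
    _ ≤ (∏ P ∈ hi, f P) * (C * T * ∏ P ∈ lo, f P) := by
        apply mul_le_mul_of_nonneg_left _ hhi0
        exact mul_le_mul_of_nonneg_left hloge hCT
    _ = C * T * ∏ P ∈ PU K z, f P := by rw [← hsplit]; ring
    _ ≤ C * T * (1 / z) := mul_le_mul_of_nonneg_left hz1 hCT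
    _ = C * T / z := by ring

end Pool.Agent.H524.SI
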